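import Pool.Agent.NegThr.Defs

/-!
A circuit with `T` NOT gates and depth `d` gives at most `2 ^ (T + 1) - 1` monotone formulas of
depth at most `d` that separate every pair `x ≤ y` with value `0` at `x` and value `1` at `y`.
-/

namespace Pool.Agent.BoolCirc

namespace Circuit

variable {n : ℕ}

/-- unfolding of a gate into a monotone formula: the NOT gates are replaced by constants -/
theorem exists_mf_gate (C : Circuit n) (D : ℕ) (v : Fin C.size → Bool) :
    ∀ (i : ℕ) (hi : i < C.size), C.gateDepth ⟨i, hi⟩ ≤ D →
    ∃ F : MF (Fin n), F.depth ≤ C.gateDepth ⟨i, hi⟩ ∧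
      ∀ x, (∀ j : Fin C.size, j.1 ≤ i → C.gateDepth j ≤ D → (C.gate j).isNot = true →
        C.val x j = v j) → F.eval x = C.val x ⟨i, hi⟩ := by
  intro i
  induction i using Nat.strong_induction_on with
  | _ i ih =>
    intro hi hD
    have aux : ∀ o : Src n i, o.depth (fun j => C.gateDepth ⟨j.1, j.2.trans hi⟩) ≤ D →
        ∃ F : MF (Fin n), F.depth ≤ o.depth (fun j => C.gateDepth ⟨j.1, j.2.trans hi⟩) ∧
        ∀ x, (∀ j : Fin C.size, j.1 < i → C.gateDepth j ≤ D → (C.gate j).isNot = true →
          C.val x j = v j) → F.eval x = o.eval x (fun j => C.val x ⟨j.1, j.2.trans hi⟩) := by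
      intro o ho
      cases o with
      | input k => exact ⟨MF.inp k, Nat.zero_le _, fun _ _ => rfl⟩
      | const b => exact ⟨MF.cst b, Nat.zero_le _, fun _ _ => rfl⟩
      | gate j =>
        obtain ⟨F, h1, h2⟩ := ih j.1 j.2 (j.2.trans hi) ho
        exact ⟨F, h1, fun x hx => h2 x (fun k hk => hx k (lt_of_le_of_lt hk j.2))⟩
    have hdep : C.gateDepth ⟨i, hi⟩ =
        (C.gate ⟨i, hi⟩).depth (fun j => C.gateDepth ⟨j.1, j.2.trans hi⟩) := by
      rw [Circuit.gateDepth]
    have hval : ∀ x, C.val x ⟨i, hi⟩ =
        (C.gate ⟨i, hi⟩).eval x (fun j => C.val x ⟨j.1, j.2.trans hi⟩) := by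
      intro x
      rw [Circuit.val]
    cases hg : C.gate ⟨i, hi⟩ with
    | and a b =>
      rw [hg] at hdep
      simp only [Gate.depth] at hdep
      obtain ⟨A, hA, hA'⟩ := aux a (by omega)
      obtain ⟨B, hB, hB'⟩ := aux b (by omega)
      refine ⟨MF.and A B, ?_, fun x hx => ?_⟩
      · rw [hdep]; simp only [MF.depth]; omega
      · rw [hval, hg]
        simp only [MF.eval, Gate.eval]
        rw [hA' x (fun j hj => hx j hj.le), hB' x (fun j hj => hx j hj.le)]
    | or a b =>
      rw [hg] at hdep
      simp only [Gate.depth] at hdep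
      obtain ⟨A, hA, hA'⟩ := aux a (by omega)
      obtain ⟨B, hB, hB'⟩ := aux b (by omega)
      refine ⟨MF.or A B, ?_, fun x hx => ?_⟩
      · rw [hdep]; simp only [MF.depth]; omega
      · rw [hval, hg]
        simp only [MF.eval, Gate.eval]
        rw [hA' x (fun j hj => hx j hj.le), hB' x (fun j hj => hx j hj.le)]
    | not a =>
      refine ⟨MF.cst (v ⟨i, hi⟩), Nat.zero_le _, fun x hx => ?_⟩
      rw [hx ⟨i, hi⟩ le_rfl hD (by rw [hg]; rfl)]
      rfl

/-- unfolding of a node -/
theorem exists_mf_src (C : Circuit n) (D : ℕ) (v : Fin C.size → Bool) (i : ℕ) (hi : i ≤ C.size)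
    (o : Src n i) (ho : o.depth (fun j => C.gateDepth ⟨j.1, lt_of_lt_of_le j.2 hi⟩) ≤ D) :
    ∃ F : MF (Fin n), F.depth ≤ D ∧
      ∀ x, (∀ j : Fin C.size, j.1 < i → C.gateDepth j ≤ D → (C.gate j).isNot = true →
        C.val x j = v j) →
        F.eval x = o.eval x (fun j => C.val x ⟨j.1, lt_of_lt_of_le j.2 hi⟩) := by
  cases o with
  | input k => exact ⟨MF.inp k, Nat.zero_le _, fun _ _ => rfl⟩
  | const b => exact ⟨MF.cst b, Nat.zero_le _, fun _ _ => rfl⟩
  | gate j =>
    obtain ⟨F, h1, h2⟩ := C.exists_mf_gate D v j.1 (lt_of_lt_of_le j.2 hi) ho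
    exact ⟨F, h1.trans ho, fun x hx => h2 x (fun k hk => hx k (lt_of_le_of_lt hk j.2))⟩

/-- number of NOT gates with number at least `k` -/
def notsFrom (C : Circuit n) (k : ℕ) : ℕ :=
  (Finset.univ.filter (fun i : Fin C.size => k ≤ i.1 ∧ (C.gate i).isNot = true)).card

theorem notsFrom_zero (C : Circuit n) : C.notsFrom 0 = C.nots := by
  unfold notsFrom nots
  congr 1
  ext i
  simp

theorem notsFrom_le (C : Circuit n) (k : ℕ) : C.notsFrom (k + 1) ≤ C.notsFrom k := by
  unfold notsFrom
  apply Finset.card_le_card
  intro i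
  simp only [Finset.mem_filter, Finset.mem_univ, true_and]
  exact fun h => ⟨by omega, h.2⟩

theorem notsFrom_lt (C : Circuit n) (k : Fin C.size) (hk : (C.gate k).isNot = true) :
    C.notsFrom (k.1 + 1) + 1 ≤ C.notsFrom k.1 := by
  unfold notsFrom
  rw [Nat.succ_le_iff]
  apply Finset.card_lt_card
  rw [Finset.ssubset_iff_of_subset]
  · exact ⟨k, by simp [hk], by simp⟩
  · intro i
    simp only [Finset.mem_filter, Finset.mem_univ, true_and]
    exact fun h => ⟨by omega, h.2⟩

/-- the induction for `exists_cover`: the first `k` gates are already known -/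
theorem exists_cover_aux (C : Circuit n) : ∀ (r k : ℕ), k + r = C.size → ∀ v : Fin C.size → Bool,
    ∃ H : List (MF (Fin n)), H.length + 1 ≤ 2 ^ (C.notsFrom k + 1) ∧
      (∀ F ∈ H, F.depth ≤ C.depth) ∧
      ∀ x y : Fin n → Bool, (∀ i, x i = true → y i = true) → C.eval x = false →
        C.eval y = true →
        (∀ j : Fin C.size, j.1 < k → C.gateDepth j ≤ C.depth → (C.gate j).isNot = true →
          C.val x j = v j ∧ C.val y j = v j) →
        ∃ F ∈ H, F.eval x = false ∧ F.eval y = true := by
  intro r
  induction r with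
  | zero =>
    intro k hk v
    have hk' : k = C.size := by omega
    subst hk'
    obtain ⟨F, hF, hFe⟩ := C.exists_mf_src C.depth v C.size le_rfl C.out le_rfl
    refine ⟨[F], ?_, by simpa using hF, ?_⟩
    · simp only [List.length_singleton]
      calc 1 + 1 = 2 ^ 1 := rfl
        _ ≤ _ := Nat.pow_le_pow_right (by norm_num) (by omega)
    · intro x y _ hx hy hv
      refine ⟨F, by simp, ?_, ?_⟩
      · rw [hFe x (fun j hj hd hn => (hv j hj hd hn).1)]
        exact hx
      · rw [hFe y (fun j hj hd hn => (hv j hj hd hn).2)]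
        exact hy
  | succ r ih =>
    intro k hk v
    have hks : k < C.size := by omega
    by_cases hrel : C.gateDepth ⟨k, hks⟩ ≤ C.depth ∧ (C.gate ⟨k, hks⟩).isNot = true
    · obtain ⟨hdk, hnk⟩ := hrel
      obtain ⟨H₀, h01, h02, h03⟩ := ih (k + 1) (by omega) (Function.update v ⟨k, hks⟩ false)
      obtain ⟨H₁, h11, h12, h13⟩ := ih (k + 1) (by omega) (Function.update v ⟨k, hks⟩ true)
      cases hg : C.gate ⟨k, hks⟩ with
      | and a b => rw [hg] at hnk; simp [Gate.isNot] at hnk
      | or a b => rw [hg] at hnk; simp [Gate.isNot] at hnk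
      | not a =>
        have hdep : C.gateDepth ⟨k, hks⟩ =
            (C.gate ⟨k, hks⟩).depth (fun j => C.gateDepth ⟨j.1, j.2.trans hks⟩) := by
          rw [Circuit.gateDepth]
        rw [hg] at hdep
        simp only [Gate.depth] at hdep
        have hval : ∀ x, C.val x ⟨k, hks⟩ =
            ! a.eval x (fun j => C.val x ⟨j.1, j.2.trans hks⟩) := by
          intro x
          rw [Circuit.val, hg]
          rfl
        obtain ⟨F, hF, hFe⟩ := C.exists_mf_src C.depth v k hks.le a (by omega)
        refine ⟨F :: (H₀ ++ H₁), ?_, ?_, ?_⟩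
        · have h1 := C.notsFrom_lt ⟨k, hks⟩ hnk
          have h2 : 2 ^ (C.notsFrom (k + 1) + 1 + 1) ≤ 2 ^ (C.notsFrom k + 1) :=
            Nat.pow_le_pow_right (by norm_num) (by simpa using h1)
          rw [pow_succ] at h2
          simp only [List.length_cons, List.length_append]
          omega
        · intro G hG
          rcases List.mem_cons.mp hG with rfl | hG
          · exact hF
          · rcases List.mem_append.mp hG with hG | hG
            · exact h02 G hG
            · exact h12 G hG
        · intro x y hxy hx hy hv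
          have hFx := hFe x (fun j hj hd hn => (hv j hj hd hn).1)
          have hFy := hFe y (fun j hj hd hn => (hv j hj hd hn).2)
          have hvx : C.val x ⟨k, hks⟩ = ! F.eval x := by rw [hval, hFx]
          have hvy : C.val y ⟨k, hks⟩ = ! F.eval y := by rw [hval, hFy]
          by_cases hsame : F.eval x = F.eval y
          · have hext : ∀ b, C.val x ⟨k, hks⟩ = b → C.val y ⟨k, hks⟩ = b →
                ∀ j : Fin C.size, j.1 < k + 1 → C.gateDepth j ≤ C.depth →
                (C.gate j).isNot = true → C.val x j = Function.update v ⟨k, hks⟩ b j ∧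
                  C.val y j = Function.update v ⟨k, hks⟩ b j := by
              intro b hbx hby j hj hd hn
              by_cases hjk : j = ⟨k, hks⟩
              · subst hjk
                rw [Function.update_self]
                exact ⟨hbx, hby⟩
              · rw [Function.update_of_ne hjk]
                refine hv j ?_ hd hn
                have : j.1 ≠ k := fun h => hjk (Fin.ext h)
                omega
            cases hb : C.val x ⟨k, hks⟩ with
            | false =>
              obtain ⟨G, hG, hG'⟩ := h03 x y hxy hx hy (hext false hb (by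
                rw [hvy, ← hsame, ← hvx, hb]))
              exact ⟨G, by simp [hG], hG'⟩
            | true =>
              obtain ⟨G, hG, hG'⟩ := h13 x y hxy hx hy (hext true hb (by
                rw [hvy, ← hsame, ← hvx, hb]))
              exact ⟨G, by simp [hG], hG'⟩
          · refine ⟨F, by simp, ?_⟩
            have hm := MF.eval_mono hxy F
            cases h1 : F.eval x with
            | false =>
              cases h2 : F.eval y with
              | false => exact absurd (h1.trans h2.symm) hsame
              | true => exact ⟨rfl, rfl⟩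
            | true => exact absurd (h1.trans (hm h1).symm) hsame
    · obtain ⟨H, h1, h2, h3⟩ := ih (k + 1) (by omega) v
      refine ⟨H, h1.trans (Nat.pow_le_pow_right (by norm_num)
        (Nat.succ_le_succ (C.notsFrom_le k))), h2, ?_⟩
      intro x y hxy hx hy hv
      refine h3 x y hxy hx hy (fun j hj hd hn => ?_)
      by_cases hjk : j.1 = k
      · exfalso
        apply hrel
        have : j = ⟨k, hks⟩ := Fin.ext hjk
        subst this
        exact ⟨hd, hn⟩
      · exact hv j (by omega) hd hn

/-- A circuit with `T` NOT gates gives at most `2 ^ (T + 1) - 1` monotone formulas, no deeper than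
the circuit, that separate every pair `x ≤ y` with value `0` at `x` and value `1` at `y`. -/
theorem exists_cover (C : Circuit n) :
    ∃ H : List (MF (Fin n)), H.length + 1 ≤ 2 ^ (C.nots + 1) ∧ (∀ F ∈ H, F.depth ≤ C.depth) ∧
      ∀ x y : Fin n → Bool, (∀ i, x i = true → y i = true) → C.eval x = false →
        C.eval y = true → ∃ F ∈ H, F.eval x = false ∧ F.eval y = true := by
  obtain ⟨H, h1, h2, h3⟩ := C.exists_cover_aux C.size 0 (by omega) (fun _ => false)
  rw [C.notsFrom_zero] at h1
  exact ⟨H, h1, h2, fun x y hxy hx hy => h3 x y hxy hx hy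
    (fun j hj => absurd hj (Nat.not_lt_zero _))⟩

end Circuit

end Pool.Agent.BoolCirc
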