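import Pool.Agent.NegThr.Defs
import Pool.Agent.BoolCirc.Excess

/-!
NOT gates far from the output of a circuit.
-/

namespace Pool.Agent.BoolCirc

/-- some directed path from gate `j` to the output passes exactly `h` further gates -/
def Circuit.Above {n : ℕ} (C : Circuit n) : ℕ → Fin C.size → Prop
  | 0, j => C.out = Src.gate j
  | h + 1, j => ∃ i : Fin C.size, C.Above h i ∧ 0 < (C.gate i).uses j.1

open Classical in
/-- number of NOT gates from which some directed path to the output passes at least `h` further
gates -/
noncomputable def Circuit.deepNots {n : ℕ} (C : Circuit n) (h : ℕ) : ℕ :=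
  (Finset.univ.filter (fun j : Fin C.size =>
    (C.gate j).isNot = true ∧ ∃ h', h ≤ h' ∧ C.Above h' j)).card

/-- largest number of NOT gates on a directed path that ends in the node, given these numbers for
the earlier gates -/
def Src.notLevel {n i : ℕ} (d : Fin i → ℕ) : Src n i → ℕ
  | .input _ => 0
  | .const _ => 0
  | .gate j => d j

/-- largest number of NOT gates on a directed path that ends in the gate (the gate included), given
these numbers for the earlier gates -/
def Gate.notLevel {n i : ℕ} (d : Fin i → ℕ) : Gate n i → ℕ
  | .and a b => max (a.notLevel d) (b.notLevel d)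
  | .or a b => max (a.notLevel d) (b.notLevel d)
  | .not a => a.notLevel d + 1

/-- largest number of NOT gates on a directed path that ends in gate number `i` (the gate
included) -/
def Circuit.notLevel {n : ℕ} (C : Circuit n) (i : Fin C.size) : ℕ :=
  (C.gate i).notLevel (fun j => C.notLevel ⟨j.1, j.2.trans i.2⟩)
termination_by i.1
decreasing_by exact j.2

end Pool.Agent.BoolCirc
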