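import Pool.Agent.BoolCirc.Formula

/-!
The number of NOT gates of a formula.
-/

namespace Pool.Agent.BoolCirc

/-- number of NOT gates of a formula -/
def Fm.nots {n : ℕ} : Fm n → ℕ
  | .inp _ => 0
  | .cst _ => 0
  | .and a b => a.nots + b.nots
  | .or a b => a.nots + b.nots
  | .not a => a.nots + 1

end Pool.Agent.BoolCirc
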