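import Pool.Agent.NegThr.Defs

/-!
Separating the comparable pairs of a disjunction over disjoint blocks by monotone functions of
small depth: at least one more function than blocks is needed, unless the block function itself
has small monotone depth.
-/

namespace Pool.Agent.BoolCirc

namespace MF

variable {ι κ : Type}

/-- a disjunction of at most `2 ^ r` monotone formulas of depth at most `d` has depth at most
`d + r` -/
theorem exists_bigOr (d : ℕ) : ∀ (r : ℕ) (L : List (MF ι)), L.length ≤ 2 ^ r →
    (∀ F ∈ L, F.depth ≤ d) →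
    ∃ F : MF ι, F.depth ≤ d + r ∧ ∀ x, (F.eval x = true ↔ ∃ G ∈ L, G.eval x = true) := by
  intro r
  induction r with
  | zero =>
    intro L hL hd
    rcases L with _ | ⟨G, L⟩
    · exact ⟨MF.cst false, by simp [MF.depth], fun x => by simp [MF.eval]⟩
    · have hL0 : L = [] := by
        have : L.length = 0 := by simpa using hL
        exact List.length_eq_zero_iff.mp this
      subst hL0
      exact ⟨G, by simpa using hd G (by simp), fun x => by simp⟩
  | succ r ih =>
    intro L hL hd
    obtain ⟨F₁, h1, h2⟩ := ih (L.take (2 ^ r)) (by simp) (fun F hF => hd F (List.mem_of_mem_take hF))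
    obtain ⟨F₂, h3, h4⟩ := ih (L.drop (2 ^ r)) (by
      rw [List.length_drop]; rw [pow_succ] at hL; omega)
      (fun F hF => hd F (List.mem_of_mem_drop hF))
    refine ⟨MF.or F₁ F₂, by simp only [MF.depth]; omega, fun x => ?_⟩
    simp only [MF.eval, Bool.or_eq_true, h2, h4]
    constructor
    · rintro (⟨G, hG, hx⟩ | ⟨G, hG, hx⟩)
      · exact ⟨G, List.mem_of_mem_take hG, hx⟩
      · exact ⟨G, List.mem_of_mem_drop hG, hx⟩
    · rintro ⟨G, hG, hx⟩
      rw [← List.take_append_drop (2 ^ r) L] at hG
      rcases List.mem_append.mp hG with h | h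
      · exact Or.inl ⟨G, h, hx⟩
      · exact Or.inr ⟨G, h, hx⟩

end MF

/-- the input that is `z` on block `i₀`, zero on the other free blocks and `w` elsewhere -/
def updBlk {m : ℕ} {E : Type} (A : Finset (Fin m)) (w : Fin m → E → Bool) (i₀ : Fin m)
    (z : E → Bool) : Fin m × E → Bool :=
  fun v => if v.1 = i₀ then z v.2 else if v.1 ∈ A then false else w v.1 v.2

/-- substitution of the input above into a formula -/
def updSub {m : ℕ} {E : Type} (A : Finset (Fin m)) (w : Fin m → E → Bool) (i₀ : Fin m) :
    Fin m × E → MF E :=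
  fun v => if v.1 = i₀ then MF.inp v.2 else if v.1 ∈ A then MF.cst false else MF.cst (w v.1 v.2)

theorem updSub_depth {m : ℕ} {E : Type} (A : Finset (Fin m)) (w : Fin m → E → Bool) (i₀ : Fin m)
    (v : Fin m × E) : (updSub A w i₀ v).depth ≤ 0 := by
  unfold updSub
  split_ifs <;> simp [MF.depth]

theorem updSub_eval {m : ℕ} {E : Type} (A : Finset (Fin m)) (w : Fin m → E → Bool) (i₀ : Fin m)
    (z : E → Bool) (F : MF (Fin m × E)) :
    (F.bind (updSub A w i₀)).eval z = F.eval (updBlk A w i₀ z) := by
  rw [MF.eval_bind]
  congr 1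
  funext v
  unfold updSub updBlk
  split_ifs <;> simp [MF.eval]

/-- one step of the argument: a block can be fixed to some `z` with `g z = false` so that one of
the formulas becomes constantly true -/
theorem cover_step {m : ℕ} {E : Type} (g : (E → Bool) → Bool) (hg0 : g (fun _ => false) = false)
    (d r : ℕ) (hg : ∀ F : MF E, F.depth ≤ d + r → ∃ x, F.eval x ≠ g x)
    (A : Finset (Fin m)) (w : Fin m → E → Bool) (H : List (MF (Fin m × E))) (i₀ : Fin m)
    (hi₀ : i₀ ∈ A) (hw : ∀ i, i ∉ A → g (w i) = false) (hH : H.length ≤ 2 ^ r)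
    (hd : ∀ F ∈ H, F.depth ≤ d)
    (hsep : ∀ x y : Fin m × E → Bool, (∀ v, x v = true → y v = true) →
        (∀ i, i ∉ A → ∀ e, x (i, e) = w i e ∧ y (i, e) = w i e) →
        (∀ i, g (fun e => x (i, e)) = false) → (∃ i, g (fun e => y (i, e)) = true) →
        ∃ F ∈ H, F.eval x = false ∧ F.eval y = true) :
    ∃ z : E → Bool, g z = false ∧ ∃ F ∈ H, F.eval (updBlk A w i₀ z) = true := by
  by_contra hcon
  push_neg at hcon
  obtain ⟨G, hGd, hG⟩ := MF.exists_bigOr d r (H.map (fun F => F.bind (updSub A w i₀)))
    (by simpa using hH) (by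
      intro F hF
      obtain ⟨F', hF', rfl⟩ := List.mem_map.mp hF
      have := MF.depth_bind_le (updSub A w i₀) 0 (updSub_depth A w i₀) F'
      exact (this.trans (by omega)).trans (hd F' hF'))
  obtain ⟨z, hz⟩ := hg G hGd
  apply hz
  have hG' : G.eval z = true ↔ ∃ F ∈ H, F.eval (updBlk A w i₀ z) = true := by
    rw [hG z]
    constructor
    · rintro ⟨F, hF, hx⟩
      obtain ⟨F', hF', rfl⟩ := List.mem_map.mp hF
      rw [updSub_eval] at hx
      exact ⟨F', hF', hx⟩
    · rintro ⟨F, hF, hx⟩
      exact ⟨_, List.mem_map.mpr ⟨F, hF, rfl⟩, by rw [updSub_eval]; exact hx⟩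
  by_cases hgz : g z = true
  · rw [hgz, hG']
    have hblk : ∀ (z' : E → Bool) (i : Fin m), g (fun e => updBlk A w i₀ z' (i, e)) =
        if i = i₀ then g z' else false := by
      intro z' i
      by_cases h1 : i = i₀
      · subst h1
        simp [updBlk]
      · by_cases h2 : i ∈ A
        · simp [updBlk, h1, h2, hg0]
        · simpa [updBlk, h1, h2] using hw i h2
    obtain ⟨F, hF, _, hy⟩ := hsep (updBlk A w i₀ (fun _ => false)) (updBlk A w i₀ z) (by
        intro v
        unfold updBlk
        split_ifs <;> simp) (by
        intro i hi e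
        have h1 : i ≠ i₀ := fun h => hi (h ▸ hi₀)
        simp [updBlk, h1, hi]) (by
        intro i
        rw [hblk]
        split_ifs
        · exact hg0
        · rfl) ⟨i₀, by rw [hblk]; simpa using hgz⟩
    exact ⟨F, hF, hy⟩
  · have hgz' : g z = false := by simpa using hgz
    rw [hgz']
    rw [← Bool.not_eq_true, hG']
    rintro ⟨F, hF, hx⟩
    have := hcon z hgz' F hF
    exact this hx

/-- Let `g` be a monotone function of the variables of a block with `g 0 = false` that is not
computed by a monotone formula of depth at most `d + r`. Let `A` be a nonempty set of free blocks,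
the other blocks being fixed to inputs `w` with `g = false`. If every pair `x ≤ y` of inputs with
these fixed blocks, `g` false on all blocks of `x` and true on some block of `y`, is separated by
one of at most `2 ^ r` monotone formulas of depth at most `d`, then there are at least `|A| + 1`
of them. -/
theorem cover_or {m : ℕ} {E : Type} (g : (E → Bool) → Bool) (hg0 : g (fun _ => false) = false)
    (hgm : ∀ x y : E → Bool, (∀ e, x e = true → y e = true) → g x = true → g y = true)
    (d r : ℕ) (hg : ∀ F : MF E, F.depth ≤ d + r → ∃ x, F.eval x ≠ g x) :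
    ∀ (N : ℕ) (A : Finset (Fin m)) (w : Fin m → E → Bool) (H : List (MF (Fin m × E))),
      A.card = N + 1 → (∀ i, i ∉ A → g (w i) = false) → H.length ≤ 2 ^ r →
      (∀ F ∈ H, F.depth ≤ d) →
      (∀ x y : Fin m × E → Bool, (∀ v, x v = true → y v = true) →
        (∀ i, i ∉ A → ∀ e, x (i, e) = w i e ∧ y (i, e) = w i e) →
        (∀ i, g (fun e => x (i, e)) = false) → (∃ i, g (fun e => y (i, e)) = true) →
        ∃ F ∈ H, F.eval x = false ∧ F.eval y = true) →
      N + 2 ≤ H.length := by
  classical
  intro N
  induction N with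
  | zero =>
    intro A w H hA hw hH hd hsep
    obtain ⟨i₀, hi₀⟩ : A.Nonempty := by rw [← Finset.card_pos]; omega
    obtain ⟨z, hgz, F₁, hF₁, hF₁z⟩ := cover_step g hg0 d r hg A w H i₀ hi₀ hw hH hd hsep
    obtain ⟨x₁, hx₁⟩ := hg (MF.cst false) (by simp [MF.depth])
    have hgx₁ : g x₁ = true := by
      simpa [MF.eval] using hx₁
    have htop : g (fun _ => true) = true := hgm x₁ _ (by simp) hgx₁
    have hblk : ∀ (z' : E → Bool) (i : Fin m), g (fun e => updBlk A w i₀ z' (i, e)) =
        if i = i₀ then g z' else false := by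
      intro z' i
      by_cases h1 : i = i₀
      · subst h1
        simp [updBlk]
      · by_cases h2 : i ∈ A
        · simp [updBlk, h1, h2, hg0]
        · simpa [updBlk, h1, h2] using hw i h2
    obtain ⟨F₂, hF₂, hF₂z, _⟩ := hsep (updBlk A w i₀ z) (updBlk A w i₀ (fun _ => true)) (by
        intro v
        unfold updBlk
        split_ifs <;> simp) (by
        intro i hi e
        have h1 : i ≠ i₀ := fun h => hi (h ▸ hi₀)
        simp [updBlk, h1, hi]) (by
        intro i
        rw [hblk]
        split_ifs
        · exact hgz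
        · rfl) ⟨i₀, by rw [hblk]; simpa using htop⟩
    have hne : F₁ ≠ F₂ := by
      intro h
      rw [h, hF₂z] at hF₁z
      exact absurd hF₁z (by simp)
    rcases H with _ | ⟨a, _ | ⟨b, H⟩⟩
    · simp at hF₁
    · simp only [List.mem_singleton] at hF₁ hF₂
      exact absurd (hF₁.trans hF₂.symm) hne
    · simp
  | succ N ih =>
    intro A w H hA hw hH hd hsep
    obtain ⟨i₀, hi₀⟩ : A.Nonempty := by rw [← Finset.card_pos]; omega
    obtain ⟨z, hgz, F₁, hF₁, hF₁z⟩ := cover_step g hg0 d r hg A w H i₀ hi₀ hw hH hd hsep
    set H' := H.filter (fun F => F.eval (updBlk A w i₀ z) = false) with hH'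
    have hlt : H'.length < H.length := by
      rw [hH']
      apply List.length_filter_lt_length_iff_exists.mpr
      exact ⟨F₁, hF₁, by simp [hF₁z]⟩
    have key := ih (A.erase i₀) (Function.update w i₀ z) H'
      (by rw [Finset.card_erase_of_mem hi₀]; omega) (by
        intro i hi
        by_cases h : i = i₀
        · subst h; simpa using hgz
        · rw [Function.update_of_ne h]
          exact hw i (fun h' => hi (Finset.mem_erase.mpr ⟨h, h'⟩))) (by omega)
      (fun F hF => hd F (List.mem_of_mem_filter hF)) (by
        intro x y hxy hfix hx hy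
        have hfix' : ∀ i, i ∉ A → ∀ e, x (i, e) = w i e ∧ y (i, e) = w i e := by
          intro i hi e
          have h1 : i ≠ i₀ := fun h => hi (h ▸ hi₀)
          have := hfix i (fun h' => hi (Finset.mem_of_mem_erase h')) e
          rwa [Function.update_of_ne h1] at this
        obtain ⟨F, hF, hFx, hFy⟩ := hsep x y hxy hfix' hx hy
        refine ⟨F, ?_, hFx, hFy⟩
        rw [hH']
        refine List.mem_filter.mpr ⟨hF, ?_⟩
        rw [decide_eq_true_iff]
        rw [← Bool.not_eq_true]
        intro hz
        have hle : ∀ v, updBlk A w i₀ z v = true → x v = true := by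
          rintro ⟨i, e⟩
          unfold updBlk
          by_cases h1 : i = i₀
          · subst h1
            have := (hfix i (by simp) e).1
            rw [Function.update_self] at this
            simp [this]
          · by_cases h2 : i ∈ A
            · simp [h1, h2]
            · simp [h1, h2, (hfix' i h2 e).1]
        have := MF.eval_mono hle F hz
        rw [hFx] at this
        exact absurd this (by simp))
    omega

end Pool.Agent.BoolCirc
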