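import Pool.Agent.NegOr.Rank
import Pool.Agent.NegOr.OrAmp
import Pool.Agent.NegThr.H
import Pool.Agent.NegThr.RM8a

/-!
Lifting of monotone lower bounds: a circuit for the disjunction of `m` copies of `g` on disjoint
variables with few NOT gates far from the output gives a monotone formula for `g`.
-/

namespace Pool.Agent.BoolCirc

namespace NegOr

/-- A monotone rank function with at most `m` values on the inputs of `m` blocks, whose growth is
detected by few monotone formulas and which separates the zeros from the ones of the disjunction of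
`g` over the blocks, gives a monotone formula for `g`. -/
theorem or_lift {m : ℕ} {E : Type} (g : (E → Bool) → Bool) (hg0 : g (fun _ => false) = false)
    {N l d p : ℕ} {Φ : (Fin m × E → Bool) → ℕ} (hΦ : Rk N l d Φ) (hl : l ≤ 2 ^ p)
    (hsep : ∀ x y : Fin m × E → Bool, (∀ v, x v = true → y v = true) →
      (∀ i, g (fun e => x (i, e)) = false) → (∃ i, g (fun e => y (i, e)) = true) → Φ x ≠ Φ y)
    (hg : ∀ F : MF E, F.depth ≤ d + p → ∃ x, F.eval x ≠ g x) : m < N := by
  have claim : ∀ j ≤ m, ∃ w : Fin m → E → Bool, (∀ i, g (w i) = false) ∧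
      (∀ i, j ≤ i.1 → w i = fun _ => false) ∧ j ≤ Φ (fun v => w v.1 v.2) := by
    intro j
    induction j with
    | zero => exact fun _ => ⟨fun _ _ => false, fun _ => hg0, fun _ _ => rfl, Nat.zero_le _⟩
    | succ j ih =>
      intro hj
      obtain ⟨w, h1, h2, h3⟩ := ih (by omega)
      obtain ⟨i₀, hi₀⟩ : ∃ i₀ : Fin m, i₀.1 = j := ⟨⟨j, hj⟩, rfl⟩
      obtain ⟨L, h4, h5, h6⟩ := hΦ.jump (fun v => w v.1 v.2)
      obtain ⟨F, h7, h8⟩ := MF.exists_bigOr d p L (h4.trans hl) h5
      obtain ⟨sub, hsub⟩ : ∃ sub : Fin m × E → MF E, sub = fun v =>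
        if v.1 = i₀ then MF.inp v.2 else MF.cst (w v.1 v.2) := ⟨_, rfl⟩
      have hsubd : ∀ v, (sub v).depth ≤ 0 := by
        intro v
        rw [hsub]
        dsimp only
        split_ifs <;> exact le_rfl
      have hG : ∀ z : E → Bool, (F.bind sub).eval z =
          F.eval (fun v => if v.1 = i₀ then z v.2 else w v.1 v.2) := by
        intro z
        rw [MF.eval_bind]
        congr 1
        funext v
        rw [hsub]
        dsimp only
        split_ifs <;> rfl
      obtain ⟨z, hz⟩ := hg (F.bind sub) (by
        have := MF.depth_bind_le sub 0 hsubd F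
        omega)
      rw [hG] at hz
      have hle : ∀ v : Fin m × E, w v.1 v.2 = true →
          (if v.1 = i₀ then z v.2 else w v.1 v.2) = true := by
        intro v hv
        by_cases hv1 : v.1 = i₀
        · rw [hv1, h2 i₀ (by omega)] at hv
          exact absurd hv (by simp)
        · rw [if_neg hv1]
          exact hv
      have hiff : F.eval (fun v => if v.1 = i₀ then z v.2 else w v.1 v.2) = true ↔
          Φ (fun v => w v.1 v.2) < Φ (fun v => if v.1 = i₀ then z v.2 else w v.1 v.2) := by
        rw [h8, h6 _ hle]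
      cases hgz : g z with
      | true =>
        exfalso
        apply hz
        rw [hgz, hiff]
        apply lt_of_le_of_ne (hΦ.mono _ _ hle)
        apply hsep _ _ hle (fun i => h1 i)
        exact ⟨i₀, by simpa using hgz⟩
      | false =>
        rw [hgz] at hz
        have hlt := hiff.1 (by simpa using hz)
        refine ⟨fun i => if i = i₀ then z else w i, ?_, ?_, ?_⟩
        · intro i
          dsimp only
          split_ifs
          · exact hgz
          · exact h1 i
        · intro i hi
          have hne : i ≠ i₀ := by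
            intro h
            rw [h] at hi
            omega
          dsimp only
          rw [if_neg hne]
          exact h2 i (by omega)
        · have heq : (fun v : Fin m × E => (if v.1 = i₀ then z else w v.1) v.2) =
              fun v => if v.1 = i₀ then z v.2 else w v.1 v.2 := by
            funext v
            split_ifs <;> rfl
          rw [heq]
          omega
  obtain ⟨w, _, _, h3⟩ := claim m le_rfl
  exact h3.trans_lt (hΦ.lt _)

/-- The lifting theorem for circuits: if `C` computes the disjunction of `g` over `m` blocks and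
`g` has no monotone formula of depth at most `C.depth + p`, where `T + 2 ^ h ≤ 2 ^ p` for the
number `T` of NOT gates at distance at least `h` from the output, then `m < 2 ^ T * (2 ^ h + 1)`. -/
theorem circuit_lift {m n : ℕ} {E : Type} (g : (E → Bool) → Bool)
    (hg0 : g (fun _ => false) = false) (ψ : Fin n → Fin m × E) (C : Circuit n)
    (hC : ∀ x : Fin m × E → Bool, (C.eval (fun j => x (ψ j)) = true ↔
      ∃ i : Fin m, g (fun e => x (i, e)) = true)) (h p : ℕ)
    (hp : C.deepNots h + 2 ^ h ≤ 2 ^ p)
    (hg : ∀ F : MF E, F.depth ≤ C.depth + p → ∃ x, F.eval x ≠ g x) :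
    m < 2 ^ C.deepNots h * (2 ^ h + 1) := by
  obtain ⟨Φ, hΦ, hsep⟩ := C.exists_rank_deep h
  refine or_lift g hg0 (hΦ.comp ψ) hp ?_ hg
  intro x y hxy hx hy heq
  have h1 := hsep _ _ (fun j => hxy (ψ j)) heq
  have h2 := (hC y).2 hy
  rw [← h1, hC x] at h2
  obtain ⟨i, hi⟩ := h2
  rw [hx i] at hi
  exact absurd hi (by simp)

theorem nots_empty (n : ℕ) : (Circuit.empty n).nots = 0 := by
  unfold Circuit.nots
  rw [Finset.card_eq_zero]
  ext i
  exact i.elim0

/-- a small circuit without NOT gates for the disjunction of the lifted pyramid function on `m`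
blocks -/
theorem exists_or_gad_circuit (m H q n : ℕ) (φ : Fin m × RVar H q → Fin n) :
    ∃ C : Circuit n, C.nots = 0 ∧ C.size ≤ m * (4 * ((H + 1) ^ 2 * q ^ 3 + q) + 2) ∧
      ∀ X, (C.eval X = true ↔ ∃ i : Fin m, gad H q (fun e => X (φ (i, e))) = true) := by
  have hind : ∀ k ≤ m, ∃ (C : Circuit n) (d : ℕ),
      ExtN (k * (4 * ((H + 1) ^ 2 * q ^ 3 + q) + 2)) 0 (Circuit.empty n) C ∧
      Avail C (fun X => decide (∃ i : Fin m, i.1 < k ∧ gad H q (fun e => X (φ (i, e))) = true))
        d := by
    intro k
    induction k with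
    | zero =>
      intro _
      refine ⟨Circuit.empty n, 0, (ExtN.refl _).weaken (Nat.zero_le _) le_rfl,
        (Avail.const _ false _).congr ?_⟩
      intro X
      simp
    | succ k ih =>
      intro hk
      obtain ⟨C1, d1, h1, h2⟩ := ih (by omega)
      obtain ⟨C2, h3, d2, h4⟩ := gad_circuit H q (fun e => φ (⟨k, hk⟩, e)) C1
      obtain ⟨C3, h5, h6⟩ := extN_or (h3.1 _ _ h2) h4
      refine ⟨C3, _, ((h1.trans h3).trans h5).weaken ?_ (by omega), h6.congr ?_⟩
      · rw [Nat.add_mul k 1, Nat.one_mul]
        omega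
      · intro X
        rw [Bool.eq_iff_iff]
        simp only [decide_eq_true_eq, Bool.or_eq_true]
        constructor
        · rintro ⟨i, hi, hX⟩
          rcases Nat.lt_succ_iff_lt_or_eq.mp hi with hlt | heq
          · exact Or.inl ⟨i, hlt, hX⟩
          · have : i = ⟨k, hk⟩ := Fin.ext heq
            subst this
            exact Or.inr hX
        · rintro (⟨i, hi, hX⟩ | hX)
          · exact ⟨i, by omega, hX⟩
          · exact ⟨⟨k, hk⟩, Nat.lt_succ_self k, hX⟩
  obtain ⟨C1, d1, h1, h2⟩ := hind m le_rfl
  obtain ⟨C3, g1, -, g3, g4⟩ := h2.exists_circuit_nots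
  refine ⟨C3, ?_, ?_, ?_⟩
  · rw [g4]
    have := h1.2.2
    rw [nots_empty] at this
    omega
  · rw [g3]
    have h5 := h1.2.1
    have h6 : (Circuit.empty n).size = 0 := rfl
    rw [h6] at h5
    omega
  · intro X
    rw [g1, decide_eq_true_eq]
    constructor
    · rintro ⟨i, _, hX⟩
      exact ⟨i, hX⟩
    · rintro ⟨i, hX⟩
      exact ⟨i, i.2, hX⟩

theorem der_false (H m : ℕ) : ∀ (k : ℕ) (i : Fin (H + 1)) (a : Fin m),
    der (fun _ : RVar H m => false) k i a = false := by
  intro k i a
  cases k with
  | zero => simp [der]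
  | succ k => simp [der]

theorem gad_false (H m : ℕ) : gad H m (fun _ => false) = false := by
  simp [gad]

/-- Key statement: circuits equivalent to a small monotone circuit are deep or have many NOT gates
far from the output. -/
theorem key_gad (H m : ℕ) (hH : 1 ≤ H) :
    ∃ (n : ℕ) (M : Circuit n), M.nots = 0 ∧
      M.size ≤ m * (4 * ((H + 1) ^ 2 * ((H + 1) ^ 40) ^ 3 + (H + 1) ^ 40) + 2) ∧
      ∀ C : Circuit n, (∀ x, C.eval x = M.eval x) → ∀ h p : ℕ,
        C.deepNots h + 2 ^ h ≤ 2 ^ p → C.depth + p < H →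
        m < 2 ^ C.deepNots h * (2 ^ h + 1) := by
  obtain ⟨φ⟩ : Nonempty (Fin m × RVar H ((H + 1) ^ 40) ≃
      Fin (Fintype.card (Fin m × RVar H ((H + 1) ^ 40)))) := ⟨Fintype.equivFin _⟩
  obtain ⟨M, hM1, hM2, hM3⟩ := exists_or_gad_circuit m H ((H + 1) ^ 40) _ φ
  refine ⟨_, M, hM1, hM2, ?_⟩
  intro C hC h p hp hd
  refine circuit_lift (gad H ((H + 1) ^ 40)) (gad_false _ _) φ.symm C ?_ h p hp ?_
  · intro x
    rw [hC, hM3]
    simp only [Equiv.symm_apply_apply]
  · intro F hF
    by_contra hcon
    push Not at hcon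
    have := gad_lower H hH F hcon
    omega

end NegOr

end Pool.Agent.BoolCirc
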