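import Pool.Agent.NegOr.Defs

/-!
Rank functions of circuits with few NOT gates: a monotone number attached to the input such that
between two comparable inputs of the same number the circuit is constant, and such that the event
that the number grows is a disjunction of few monotone formulas. Only the NOT gates that are far
from the output are counted.
-/

namespace Pool.Agent.BoolCirc

/-! ### Rank functions -/

section rank

variable {ι : Type}

/-- above every `x₀`, as long as the rank does not grow, `u` is given by a monotone formula -/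
def Giv (Φ : (ι → Bool) → ℕ) (u : (ι → Bool) → Bool) (d : ℕ) : Prop :=
  ∀ x₀, ∃ F : MF ι, F.depth ≤ d ∧
    ∀ y, (∀ i, x₀ i = true → y i = true) → Φ y = Φ x₀ → F.eval y = u y

/-- `Φ` is a monotone function with values less than `N`, and growth of `Φ` is detected by a
disjunction of at most `l` monotone formulas of depth at most `d` -/
structure Rk (N l d : ℕ) (Φ : (ι → Bool) → ℕ) : Prop where
  lt : ∀ x, Φ x < N
  mono : ∀ x y, (∀ i, x i = true → y i = true) → Φ x ≤ Φ y
  jump : ∀ x₀, ∃ L : List (MF ι), L.length ≤ l ∧ (∀ F ∈ L, F.depth ≤ d) ∧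
    ∀ y, (∀ i, x₀ i = true → y i = true) → ((∃ F ∈ L, F.eval y = true) ↔ Φ x₀ < Φ y)

theorem Rk.weaken {N N' l l' d : ℕ} {Φ : (ι → Bool) → ℕ} (h : Rk N l d Φ) (hN : N ≤ N')
    (hl : l ≤ l') : Rk N' l' d Φ where
  lt := fun x => (h.lt x).trans_le hN
  mono := h.mono
  jump := fun x₀ => by
    obtain ⟨L, h1, h2, h3⟩ := h.jump x₀
    exact ⟨L, h1.trans hl, h2, h3⟩

theorem Giv.weaken {Φ : (ι → Bool) → ℕ} {u : (ι → Bool) → Bool} {d d' : ℕ} (h : Giv Φ u d)
    (hd : d ≤ d') : Giv Φ u d' := fun x₀ => by
  obtain ⟨F, h1, h2⟩ := h x₀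
  exact ⟨F, h1.trans hd, h2⟩

theorem Giv.mono {Φ : (ι → Bool) → ℕ} {u : (ι → Bool) → Bool} {d : ℕ} (h : Giv Φ u d)
    {x y : ι → Bool} (hxy : ∀ i, x i = true → y i = true) (hΦ : Φ y = Φ x) (hu : u x = true) :
    u y = true := by
  obtain ⟨F, _, hF⟩ := h x
  rw [← hF y hxy hΦ]
  apply MF.eval_mono hxy
  rw [hF x (fun _ hi => hi) rfl]
  exact hu

theorem countP_lt_iff {α : Type} (p q : α → Bool) : ∀ l : List α,
    (∀ a ∈ l, p a = true → q a = true) →
    (l.countP p ≤ l.countP q ∧
      (l.countP p < l.countP q ↔ ∃ a ∈ l, p a = false ∧ q a = true)) := by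
  intro l
  induction l with
  | nil => intro _; simp
  | cons a l ih =>
    intro h
    obtain ⟨h1, h2⟩ := ih (fun b hb => h b (List.mem_cons_of_mem a hb))
    have ha := h a (by simp)
    simp only [List.countP_cons, List.mem_cons, exists_eq_or_imp]
    rw [← h2]
    cases hp : p a with
    | false =>
      cases hq : q a with
      | false => simp [h1]
      | true => simp; omega
    | true =>
      have hq := ha hp
      simp [hq, h1]

/-- the formulas that detect growth of one of the functions `us` -/
theorem exists_jump_list {Φ : (ι → Bool) → ℕ} {d : ℕ} (x₀ : ι → Bool) :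
    ∀ us : List ((ι → Bool) → Bool), (∀ u ∈ us, Giv Φ u d) →
      ∃ L : List (MF ι), L.length = us.length ∧ (∀ F ∈ L, F.depth ≤ d) ∧
        ∀ y, (∀ i, x₀ i = true → y i = true) → Φ y = Φ x₀ →
          ((∃ F ∈ L, F.eval y = true) ↔ ∃ u ∈ us, u x₀ = false ∧ u y = true) := by
  intro us
  induction us with
  | nil => intro _; exact ⟨[], rfl, by simp, by simp⟩
  | cons u us ih =>
    intro h
    obtain ⟨L, h1, h2, h3⟩ := ih (fun v hv => h v (List.mem_cons_of_mem u hv))
    obtain ⟨F, hF1, hF2⟩ := h u (by simp) x₀
    by_cases hu : u x₀ = true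
    · refine ⟨MF.cst false :: L, by simp [h1], ?_, ?_⟩
      · intro G hG
        rcases List.mem_cons.mp hG with rfl | hG
        · exact Nat.zero_le _
        · exact h2 G hG
      · intro y hy hΦ
        simp only [List.mem_cons, exists_eq_or_imp, MF.eval, hu]
        simpa using h3 y hy hΦ
    · have hu' : u x₀ = false := by simpa using hu
      refine ⟨F :: L, by simp [h1], ?_, ?_⟩
      · intro G hG
        rcases List.mem_cons.mp hG with rfl | hG
        · exact hF1
        · exact h2 G hG
      · intro y hy hΦ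
        simp only [List.mem_cons, exists_eq_or_imp, hu', true_and]
        rw [hF2 y hy hΦ, h3 y hy hΦ]

/-- the rank after recording the values of the functions `us` -/
def stepRank (Φ : (ι → Bool) → ℕ) (us : List ((ι → Bool) → Bool)) (x : ι → Bool) : ℕ :=
  (us.length + 1) * Φ x + us.countP (fun u => u x)

theorem stepRank_lt_iff {Φ : (ι → Bool) → ℕ} {us : List ((ι → Bool) → Bool)} {x y : ι → Bool}
    (hΦ : Φ x ≤ Φ y) (hus : Φ y = Φ x → ∀ u ∈ us, u x = true → u y = true) :
    stepRank Φ us x ≤ stepRank Φ us y ∧ (stepRank Φ us x < stepRank Φ us y ↔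
      (Φ x < Φ y ∨ (Φ y = Φ x ∧ ∃ u ∈ us, u x = false ∧ u y = true))) := by
  unfold stepRank
  rcases Nat.lt_or_ge (Φ x) (Φ y) with hlt | hge
  · have hc : us.countP (fun u => u x) ≤ us.length := List.countP_le_length
    have h1 : (us.length + 1) * (Φ x + 1) ≤ (us.length + 1) * Φ y :=
      Nat.mul_le_mul_left _ hlt
    rw [mul_add, mul_one] at h1
    refine ⟨by omega, ?_⟩
    constructor
    · intro _
      exact Or.inl hlt
    · intro _
      omega
  · have heq : Φ y = Φ x := le_antisymm hge hΦ
    obtain ⟨h1, h2⟩ := countP_lt_iff (fun u : (ι → Bool) → Bool => u x) (fun u => u y) us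
      (hus heq)
    rw [heq]
    refine ⟨by omega, ?_⟩
    constructor
    · intro h
      exact Or.inr ⟨rfl, h2.1 (by omega)⟩
    · rintro (h | ⟨-, h⟩)
      · omega
      · have := h2.2 h
        omega

theorem Rk.step {N l d : ℕ} {Φ : (ι → Bool) → ℕ} (h : Rk N l d Φ)
    (us : List ((ι → Bool) → Bool)) (hus : ∀ u ∈ us, Giv Φ u d) :
    Rk (N * (us.length + 1)) (l + us.length) d (stepRank Φ us) where
  lt := fun x => by
    unfold stepRank
    have hc : us.countP (fun u => u x) ≤ us.length := List.countP_le_length
    have h1 : (us.length + 1) * (Φ x + 1) ≤ (us.length + 1) * N :=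
      Nat.mul_le_mul_left _ (h.lt x)
    rw [mul_add, mul_one] at h1
    rw [mul_comm N]
    omega
  mono := fun x y hxy => (stepRank_lt_iff (h.mono x y hxy)
    (fun heq u hu => (hus u hu).mono hxy heq)).1
  jump := fun x₀ => by
    obtain ⟨L, h1, h2, h3⟩ := h.jump x₀
    obtain ⟨L', h4, h5, h6⟩ := exists_jump_list x₀ us hus
    refine ⟨L ++ L', by rw [List.length_append]; omega, ?_, ?_⟩
    · intro F hF
      rcases List.mem_append.mp hF with hF | hF
      · exact h2 F hF
      · exact h5 F hF
    · intro y hy
      rw [(stepRank_lt_iff (h.mono x₀ y hy) (fun heq u hu => (hus u hu).mono hy heq)).2]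
      rcases Nat.lt_or_ge (Φ x₀) (Φ y) with hlt | hge
      · constructor
        · intro _
          exact Or.inl hlt
        · intro _
          obtain ⟨F, hF, hFy⟩ := (h3 y hy).2 hlt
          exact ⟨F, List.mem_append.mpr (Or.inl hF), hFy⟩
      · have heq : Φ y = Φ x₀ := le_antisymm hge (h.mono x₀ y hy)
        constructor
        · rintro ⟨F, hF, hFy⟩
          rcases List.mem_append.mp hF with hF | hF
          · exact Or.inl ((h3 y hy).1 ⟨F, hF, hFy⟩)
          · exact Or.inr ⟨heq, (h6 y hy heq).1 ⟨F, hF, hFy⟩⟩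
        · rintro (hlt | ⟨-, hu⟩)
          · omega
          · obtain ⟨F, hF, hFy⟩ := (h6 y hy heq).2 hu
            exact ⟨F, List.mem_append.mpr (Or.inr hF), hFy⟩

theorem Rk.step_eq {N l d : ℕ} {Φ : (ι → Bool) → ℕ} (h : Rk N l d Φ)
    {us : List ((ι → Bool) → Bool)} (hus : ∀ u ∈ us, Giv Φ u d) {x y : ι → Bool}
    (hxy : ∀ i, x i = true → y i = true) (heq : stepRank Φ us y = stepRank Φ us x) :
    Φ y = Φ x ∧ ∀ u ∈ us, u y = u x := by
  obtain ⟨h1, h2⟩ := stepRank_lt_iff (us := us) (h.mono x y hxy)
    (fun heq u hu => (hus u hu).mono hxy heq)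
  have h3 : ¬ stepRank Φ us x < stepRank Φ us y := by omega
  rw [h2] at h3
  push Not at h3
  obtain ⟨h4, h5⟩ := h3
  have h6 : Φ y = Φ x := le_antisymm h4 (h.mono x y hxy)
  refine ⟨h6, fun u hu => ?_⟩
  cases hux : u x with
  | false =>
    have := h5 h6 u hu hux
    simpa using this
  | true => exact (hus u hu).mono hxy h6 hux

theorem Rk.comp {κ : Type} {N l d : ℕ} {Φ : (ι → Bool) → ℕ} (h : Rk N l d Φ) (ψ : ι → κ) :
    Rk N l d (fun x : κ → Bool => Φ (fun i => x (ψ i))) where
  lt := fun x => h.lt _
  mono := fun x y hxy => h.mono _ _ (fun i => hxy (ψ i))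
  jump := fun x₀ => by
    obtain ⟨L, h1, h2, h3⟩ := h.jump (fun i => x₀ (ψ i))
    refine ⟨L.map (fun F => F.bind (fun i => MF.inp (ψ i))), by rw [List.length_map]; exact h1,
      ?_, ?_⟩
    · intro F hF
      obtain ⟨F', hF', rfl⟩ := List.mem_map.mp hF
      have := MF.depth_bind_le (fun i => MF.inp (ψ i)) 0 (fun _ => le_rfl) F'
      exact (this.trans (by omega)).trans (h2 F' hF')
    · intro y hy
      rw [← h3 (fun i => y (ψ i)) (fun i => hy (ψ i))]
      constructor
      · rintro ⟨F, hF, hFy⟩
        obtain ⟨F', hF', rfl⟩ := List.mem_map.mp hF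
        rw [MF.eval_bind] at hFy
        exact ⟨F', hF', hFy⟩
      · rintro ⟨F, hF, hFy⟩
        refine ⟨_, List.mem_map.mpr ⟨F, hF, rfl⟩, ?_⟩
        rw [MF.eval_bind]
        exact hFy

end rank

/-! ### The rank function of a circuit -/

section circ

variable {n : ℕ}

theorem Gate.uses_pos_of_mem {i : ℕ} (g : Gate n i) (j : Fin i) (h : Src.gate j ∈ g.operands) :
    0 < g.uses j.1 := by
  cases g with
  | and a b =>
    simp only [Gate.operands, List.mem_cons, List.not_mem_nil, or_false] at h
    rcases h with h | h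
    · subst h; simp [Gate.uses, Src.uses]
    · subst h; simp [Gate.uses, Src.uses]
  | or a b =>
    simp only [Gate.operands, List.mem_cons, List.not_mem_nil, or_false] at h
    rcases h with h | h
    · subst h; simp [Gate.uses, Src.uses]
    · subst h; simp [Gate.uses, Src.uses]
  | not a =>
    simp only [Gate.operands, List.mem_cons, List.not_mem_nil, or_false] at h
    subst h; simp [Gate.uses, Src.uses]

theorem Gate.mem_of_uses_pos {i : ℕ} (g : Gate n i) (j : ℕ) (h : 0 < g.uses j) :
    ∃ hj : j < i, Src.gate ⟨j, hj⟩ ∈ g.operands := by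
  have aux : ∀ o : Src n i, 0 < o.uses j → ∃ hj : j < i, o = Src.gate ⟨j, hj⟩ := by
    intro o ho
    cases o with
    | input k => simp [Src.uses] at ho
    | const b => simp [Src.uses] at ho
    | gate k =>
      have : k.1 = j := by
        by_contra hne
        simp [Src.uses, hne] at ho
      subst this
      exact ⟨k.2, rfl⟩
  cases g with
  | and a b =>
    simp only [Gate.uses] at h
    rcases Nat.eq_zero_or_pos (a.uses j) with h0 | h0
    · obtain ⟨hj, hb⟩ := aux b (by omega)
      exact ⟨hj, by simp [Gate.operands, hb]⟩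
    · obtain ⟨hj, hb⟩ := aux a h0
      exact ⟨hj, by simp [Gate.operands, hb]⟩
  | or a b =>
    simp only [Gate.uses] at h
    rcases Nat.eq_zero_or_pos (a.uses j) with h0 | h0
    · obtain ⟨hj, hb⟩ := aux b (by omega)
      exact ⟨hj, by simp [Gate.operands, hb]⟩
    · obtain ⟨hj, hb⟩ := aux a h0
      exact ⟨hj, by simp [Gate.operands, hb]⟩
  | not a =>
    simp only [Gate.uses] at h
    obtain ⟨hj, hb⟩ := aux a h
    exact ⟨hj, by simp [Gate.operands, hb]⟩

theorem Gate.depth_operand_lt {i : ℕ} (g : Gate n i) (d : Fin i → ℕ) (o : Src n i)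
    (h : o ∈ g.operands) : o.depth d + 1 ≤ g.depth d := by
  cases g with
  | and a b =>
    simp only [Gate.operands, List.mem_cons, List.not_mem_nil, or_false] at h
    rcases h with h | h <;> subst h <;> simp only [Gate.depth] <;> omega
  | or a b =>
    simp only [Gate.operands, List.mem_cons, List.not_mem_nil, or_false] at h
    rcases h with h | h <;> subst h <;> simp only [Gate.depth] <;> omega
  | not a =>
    simp only [Gate.operands, List.mem_cons, List.not_mem_nil, or_false] at h
    subst h; simp only [Gate.depth]; omega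

theorem Circuit.gateDepth_lt_of_uses (C : Circuit n) (i j : Fin C.size)
    (h : 0 < (C.gate i).uses j.1) : C.gateDepth j + 1 ≤ C.gateDepth i := by
  obtain ⟨hj, hm⟩ := (C.gate i).mem_of_uses_pos j.1 h
  have h1 := (C.gate i).depth_operand_lt (fun k => C.gateDepth ⟨k.1, k.2.trans i.2⟩) _ hm
  have h2 : C.gateDepth i =
      (C.gate i).depth (fun j => C.gateDepth ⟨j.1, j.2.trans i.2⟩) := by
    rw [Circuit.gateDepth]
  rw [h2]
  exact h1

theorem Circuit.Above.depth_le (C : Circuit n) : ∀ (h : ℕ) (j : Fin C.size), C.Above h j →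
    C.gateDepth j + h ≤ C.depth := by
  intro h
  induction h with
  | zero =>
    intro j hj
    have hj' : C.out = Src.gate j := hj
    unfold Circuit.depth
    rw [hj']
    exact le_rfl
  | succ h ih =>
    rintro j ⟨i, hi, hu⟩
    have h1 := ih i hi
    have h2 := C.gateDepth_lt_of_uses i j hu
    omega

open Classical in
/-- number of NOT gates in `R` among the first `s` gates -/
noncomputable def Circuit.notsIn (C : Circuit n) (R : Fin C.size → Prop) (s : ℕ) : ℕ :=
  (Finset.univ.filter (fun j : Fin C.size => j.1 < s ∧ (C.gate j).isNot = true ∧ R j)).card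

theorem Circuit.notsIn_le (C : Circuit n) (R : Fin C.size → Prop) (s : ℕ) :
    C.notsIn R s ≤ C.notsIn R (s + 1) := by
  classical
  unfold Circuit.notsIn
  apply Finset.card_le_card
  intro j
  simp only [Finset.mem_filter, Finset.mem_univ, true_and]
  exact fun h => ⟨by omega, h.2⟩

theorem Circuit.notsIn_lt (C : Circuit n) (R : Fin C.size → Prop) (k : Fin C.size)
    (hk : (C.gate k).isNot = true) (hR : R k) :
    C.notsIn R k.1 + 1 ≤ C.notsIn R (k.1 + 1) := by
  classical
  unfold Circuit.notsIn
  rw [Nat.succ_le_iff]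
  apply Finset.card_lt_card
  rw [Finset.ssubset_iff_of_subset]
  · exact ⟨k, by simp [hk, hR], by simp⟩
  · intro j
    simp only [Finset.mem_filter, Finset.mem_univ, true_and]
    exact fun h => ⟨by omega, h.2⟩

/-- the rank function given by the NOT gates in a set of gates closed under predecessors -/
theorem Circuit.exists_rank (C : Circuit n) (R : Fin C.size → Prop)
    (hR : ∀ i j : Fin C.size, R i → 0 < (C.gate i).uses j.1 → R j) (D : ℕ)
    (hD : ∀ i, R i → C.gateDepth i ≤ D) : ∀ s ≤ C.size,
    ∃ Φ : (Fin n → Bool) → ℕ, Rk (2 ^ C.notsIn R s) (C.notsIn R s) D Φ ∧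
      ∀ j : Fin C.size, j.1 < s → R j → Giv Φ (fun x => C.val x j) (C.gateDepth j) := by
  intro s
  induction s with
  | zero =>
    intro _
    refine ⟨fun _ => 0, ⟨fun _ => by positivity, fun _ _ _ => le_rfl, fun x₀ =>
      ⟨[], Nat.zero_le _, by simp, by simp⟩⟩, fun j hj => absurd hj (Nat.not_lt_zero _)⟩
  | succ s ih =>
    intro hs
    have hs' : s < C.size := hs
    obtain ⟨Φ, hΦ, hgiv⟩ := ih hs'.le
    by_cases hRs : R ⟨s, hs'⟩
    · have aux : ∀ o ∈ (C.gate ⟨s, hs'⟩).operands,
          Giv Φ (fun x => o.eval x (fun j => C.val x ⟨j.1, j.2.trans hs'⟩))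
            (o.depth (fun j => C.gateDepth ⟨j.1, j.2.trans hs'⟩)) := by
        intro o ho
        cases o with
        | input k => exact fun _ => ⟨MF.inp k, Nat.zero_le _, fun _ _ _ => rfl⟩
        | const b => exact fun _ => ⟨MF.cst b, Nat.zero_le _, fun _ _ _ => rfl⟩
        | gate j =>
          exact hgiv ⟨j.1, j.2.trans hs'⟩ j.2
            (hR _ _ hRs ((C.gate ⟨s, hs'⟩).uses_pos_of_mem j ho))
      have hdep : C.gateDepth ⟨s, hs'⟩ =
          (C.gate ⟨s, hs'⟩).depth (fun j => C.gateDepth ⟨j.1, j.2.trans hs'⟩) := by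
        rw [Circuit.gateDepth]
      have hval : ∀ x, C.val x ⟨s, hs'⟩ =
          (C.gate ⟨s, hs'⟩).eval x (fun j => C.val x ⟨j.1, j.2.trans hs'⟩) := by
        intro x
        rw [Circuit.val]
      cases hg : C.gate ⟨s, hs'⟩ with
      | and a b =>
        rw [hg] at hdep hval aux
        simp only [Gate.depth] at hdep
        refine ⟨Φ, hΦ.weaken (Nat.pow_le_pow_right (by norm_num) (C.notsIn_le R s))
          (C.notsIn_le R s), fun j hj hRj => ?_⟩
        rcases Nat.lt_succ_iff_lt_or_eq.mp hj with hlt | heq
        · exact hgiv j hlt hRj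
        · have hjs : j = ⟨s, hs'⟩ := Fin.ext heq
          subst hjs
          intro x₀
          obtain ⟨A, hA, hA'⟩ := aux a (by simp [Gate.operands]) x₀
          obtain ⟨B, hB, hB'⟩ := aux b (by simp [Gate.operands]) x₀
          refine ⟨MF.and A B, ?_, fun y hy hΦy => ?_⟩
          · rw [hdep]; simp only [MF.depth]; omega
          · show _ = C.val y ⟨s, hs'⟩
            rw [hval]
            simp only [MF.eval, Gate.eval]
            rw [hA' y hy hΦy, hB' y hy hΦy]
      | or a b =>
        rw [hg] at hdep hval aux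
        simp only [Gate.depth] at hdep
        refine ⟨Φ, hΦ.weaken (Nat.pow_le_pow_right (by norm_num) (C.notsIn_le R s))
          (C.notsIn_le R s), fun j hj hRj => ?_⟩
        rcases Nat.lt_succ_iff_lt_or_eq.mp hj with hlt | heq
        · exact hgiv j hlt hRj
        · have hjs : j = ⟨s, hs'⟩ := Fin.ext heq
          subst hjs
          intro x₀
          obtain ⟨A, hA, hA'⟩ := aux a (by simp [Gate.operands]) x₀
          obtain ⟨B, hB, hB'⟩ := aux b (by simp [Gate.operands]) x₀
          refine ⟨MF.or A B, ?_, fun y hy hΦy => ?_⟩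
          · rw [hdep]; simp only [MF.depth]; omega
          · show _ = C.val y ⟨s, hs'⟩
            rw [hval]
            simp only [MF.eval, Gate.eval]
            rw [hA' y hy hΦy, hB' y hy hΦy]
      | not a =>
        have hnot : (C.gate ⟨s, hs'⟩).isNot = true := by rw [hg]; rfl
        rw [hg] at hdep hval aux
        simp only [Gate.depth] at hdep
        have hDs := hD _ hRs
        have hga := (aux a (by simp [Gate.operands])).weaken (d' := D) (by omega)
        obtain ⟨u, hu⟩ : ∃ u : (Fin n → Bool) → Bool,
            u = fun x => a.eval x (fun j => C.val x ⟨j.1, j.2.trans hs'⟩) := ⟨_, rfl⟩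
        rw [← hu] at hga
        have hus : ∀ v ∈ [u], Giv Φ v D := by
          intro v hv
          rw [List.mem_singleton.mp hv]
          exact hga
        have hlt := C.notsIn_lt R ⟨s, hs'⟩ hnot hRs
        have hlt' : C.notsIn R s + 1 ≤ C.notsIn R (s + 1) := hlt
        refine ⟨stepRank Φ [u], (hΦ.step [u] hus).weaken ?_ hlt', fun j hj hRj => ?_⟩
        · simp only [List.length_singleton]
          calc 2 ^ C.notsIn R s * (1 + 1) = 2 ^ (C.notsIn R s + 1) := by rw [pow_succ]
            _ ≤ _ := Nat.pow_le_pow_right (by norm_num) hlt'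
        · rcases Nat.lt_succ_iff_lt_or_eq.mp hj with hlt | heq
          · intro x₀
            obtain ⟨F, h1, h2⟩ := hgiv j hlt hRj x₀
            exact ⟨F, h1, fun y hy hy' => h2 y hy (hΦ.step_eq hus hy hy').1⟩
          · have hjs : j = ⟨s, hs'⟩ := Fin.ext heq
            subst hjs
            intro x₀
            refine ⟨MF.cst (! u x₀), Nat.zero_le _, fun y hy hy' => ?_⟩
            have h3 := (hΦ.step_eq hus hy hy').2 u (by simp)
            show _ = C.val y ⟨s, hs'⟩
            rw [hval]
            simp only [MF.eval, Gate.eval]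
            rw [← h3, hu]
    · refine ⟨Φ, hΦ.weaken (Nat.pow_le_pow_right (by norm_num) (C.notsIn_le R s))
        (C.notsIn_le R s), fun j hj hRj => ?_⟩
      rcases Nat.lt_succ_iff_lt_or_eq.mp hj with hlt | heq
      · exact hgiv j hlt hRj
      · have hjs : j = ⟨s, hs'⟩ := Fin.ext heq
        subst hjs
        exact absurd hRj hRs

/-- a node that feeds gate `i` as a node of the circuit -/
def Src.up (C : Circuit n) (i : Fin C.size) : Src n i.1 → Src n C.size
  | .input k => .input k
  | .const b => .const b
  | .gate j => .gate ⟨j.1, j.2.trans i.2⟩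

/-- the nodes `h` gates below the output determine the output -/
theorem Circuit.exists_front (C : Circuit n) : ∀ h : ℕ, ∃ fr : List (Src n C.size),
    fr.length ≤ 2 ^ h ∧ (∀ j, Src.gate j ∈ fr → C.Above h j) ∧
    ∀ x y, (∀ o ∈ fr, o.eval x (C.val x) = o.eval y (C.val y)) → C.eval x = C.eval y := by
  intro h
  induction h with
  | zero =>
    refine ⟨[C.out], by simp, ?_, ?_⟩
    · intro j hj
      exact (List.mem_singleton.mp hj).symm
    · intro x y hxy
      exact hxy C.out (by simp)
  | succ h ih =>
    obtain ⟨fr, h1, h2, h3⟩ := ih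
    obtain ⟨kids, hkids⟩ : ∃ kids : Src n C.size → List (Src n C.size), kids = fun o =>
        match o with
        | .gate i => (C.gate i).operands.map (Src.up C i)
        | .input k => [.input k]
        | .const b => [.const b] := ⟨_, rfl⟩
    have hlen : ∀ o, (kids o).length ≤ 2 := by
      intro o
      rw [hkids]
      cases o with
      | input k => simp
      | const b => simp
      | gate i =>
        simp only [List.length_map]
        cases C.gate i <;> simp [Gate.operands]
    refine ⟨fr.flatMap kids, ?_, ?_, ?_⟩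
    · have : ∀ l : List (Src n C.size), (l.flatMap kids).length ≤ 2 * l.length := by
        intro l
        induction l with
        | nil => simp
        | cons o l ih =>
          rw [List.flatMap_cons, List.length_append, List.length_cons]
          have := hlen o
          omega
      rw [pow_succ]
      have := this fr
      omega
    · intro j hj
      obtain ⟨o, ho, hjo⟩ := List.mem_flatMap.mp hj
      rw [hkids] at hjo
      cases o with
      | input k => simp at hjo
      | const b => simp at hjo
      | gate i =>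
        simp only [List.mem_map] at hjo
        obtain ⟨o', ho', hup⟩ := hjo
        cases o' with
        | input k => simp [Src.up] at hup
        | const b => simp [Src.up] at hup
        | gate j' =>
          simp only [Src.up, Src.gate.injEq] at hup
          subst hup
          exact ⟨i, h2 i ho, (C.gate i).uses_pos_of_mem j' ho'⟩
    · intro x y hxy
      apply h3
      intro o ho
      cases o with
      | input k => exact hxy (.input k) (List.mem_flatMap.mpr ⟨_, ho, by rw [hkids]; simp⟩)
      | const b => rfl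
      | gate i =>
        have hsub : ∀ o' ∈ (C.gate i).operands,
            o'.eval x (fun j => C.val x ⟨j.1, j.2.trans i.2⟩) =
            o'.eval y (fun j => C.val y ⟨j.1, j.2.trans i.2⟩) := by
          intro o' ho'
          have h4 := hxy (Src.up C i o') (List.mem_flatMap.mpr ⟨_, ho, by
            rw [hkids]; exact List.mem_map.mpr ⟨o', ho', rfl⟩⟩)
          cases o' with
          | input k => exact h4
          | const b => rfl
          | gate j => exact h4
        show C.val x i = C.val y i
        have hvi : ∀ z, C.val z i =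
            (C.gate i).eval z (fun j => C.val z ⟨j.1, j.2.trans i.2⟩) := by
          intro z
          rw [Circuit.val]
        rw [hvi x, hvi y]
        cases hg : C.gate i with
        | and a b =>
          rw [hg] at hsub
          simp only [Gate.eval]
          rw [hsub a (by simp [Gate.operands]), hsub b (by simp [Gate.operands])]
        | or a b =>
          rw [hg] at hsub
          simp only [Gate.eval]
          rw [hsub a (by simp [Gate.operands]), hsub b (by simp [Gate.operands])]
        | not a =>
          rw [hg] at hsub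
          simp only [Gate.eval]
          rw [hsub a (by simp [Gate.operands])]

/-- The rank function of a circuit that records the NOT gates far from the output and the nodes
`h` gates below the output. -/
theorem Circuit.exists_rank_deep (C : Circuit n) (h : ℕ) :
    ∃ Φ : (Fin n → Bool) → ℕ,
      Rk (2 ^ C.deepNots h * (2 ^ h + 1)) (C.deepNots h + 2 ^ h) C.depth Φ ∧
      ∀ x y, (∀ i, x i = true → y i = true) → Φ x = Φ y → C.eval x = C.eval y := by
  obtain ⟨R, hRdef⟩ : ∃ R : Fin C.size → Prop, R = fun j => ∃ h', h ≤ h' ∧ C.Above h' j :=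
    ⟨_, rfl⟩
  have hR : ∀ i j : Fin C.size, R i → 0 < (C.gate i).uses j.1 → R j := by
    intro i j hi hu
    rw [hRdef] at hi ⊢
    obtain ⟨h', h1, h2⟩ := hi
    exact ⟨h' + 1, by omega, i, h2, hu⟩
  have hD : ∀ i, R i → C.gateDepth i ≤ C.depth := by
    intro i hi
    rw [hRdef] at hi
    obtain ⟨h', h1, h2⟩ := hi
    have := Circuit.Above.depth_le C h' i h2
    omega
  have hcount : C.notsIn R C.size = C.deepNots h := by
    classical
    unfold Circuit.notsIn Circuit.deepNots
    congr 1
    ext j
    simp only [Finset.mem_filter, Finset.mem_univ, true_and, hRdef]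
    exact ⟨fun hh => hh.2, fun hh => ⟨j.2, hh⟩⟩
  obtain ⟨Φ, hΦ, hgiv⟩ := C.exists_rank R hR C.depth hD C.size le_rfl
  rw [hcount] at hΦ
  obtain ⟨fr, hf1, hf2, hf3⟩ := C.exists_front h
  have hus : ∀ u ∈ fr.map (fun o : Src n C.size => fun x => o.eval x (C.val x)),
      Giv Φ u C.depth := by
    intro u hu
    obtain ⟨o, ho, rfl⟩ := List.mem_map.mp hu
    cases o with
    | input k => exact fun _ => ⟨MF.inp k, Nat.zero_le _, fun _ _ _ => rfl⟩
    | const b => exact fun _ => ⟨MF.cst b, Nat.zero_le _, fun _ _ _ => rfl⟩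
    | gate j =>
      have hj : R j := by
        rw [hRdef]
        exact ⟨h, le_rfl, hf2 j ho⟩
      exact (hgiv j j.2 hj).weaken (hD j hj)
  refine ⟨stepRank Φ (fr.map (fun o : Src n C.size => fun x => o.eval x (C.val x))),
    (hΦ.step _ hus).weaken ?_ ?_, ?_⟩
  · rw [List.length_map]
    exact Nat.mul_le_mul_left _ (by omega)
  · rw [List.length_map]
    omega
  · intro x y hxy heq
    have h3 := (hΦ.step_eq hus hxy heq.symm).2
    apply hf3
    intro o ho
    exact (h3 _ (List.mem_map.mpr ⟨o, ho, rfl⟩)).symm

end circ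

end Pool.Agent.BoolCirc
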