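import Pool.Agent.NegOr.FmDefs
import Pool.Agent.NegOr.Rank
import Pool.Agent.NegOr.Lift

/-!
Formulas with few NOT gates: along a chain of inputs the operands of the NOT gates grow only a
small number of times.
-/

namespace Pool.Agent.BoolCirc

namespace Fm

variable {n : ℕ}

/-- the functions computed by the operands of the NOT gates -/
def ops : Fm n → List ((Fin n → Bool) → Bool)
  | inp _ => []
  | cst _ => []
  | and a b => a.ops ++ b.ops
  | or a b => a.ops ++ b.ops
  | not a => a.ops ++ [fun x => a.eval x]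

/-- the rank function of a formula, refining a given one -/
theorem exists_rank (D : ℕ) : ∀ (F : Fm n), F.depth ≤ D →
    ∀ (Φ₀ : (Fin n → Bool) → ℕ) (N₀ l₀ : ℕ), Rk N₀ l₀ D Φ₀ →
    ∃ (Φ : (Fin n → Bool) → ℕ) (N : ℕ), Rk N (l₀ + F.nots) D Φ ∧
      (∀ x y, (∀ i, x i = true → y i = true) → Φ y = Φ x → Φ₀ y = Φ₀ x) ∧
      Giv Φ (fun x => F.eval x) F.depth ∧
      ∀ x y, (∀ i, x i = true → y i = true) → Φ x < Φ y →
        Φ₀ x < Φ₀ y ∨ ∃ u ∈ F.ops, u x = false ∧ u y = true := by
  -- two subformulas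
  have two : ∀ a b : Fm n,
      (∀ (Φ₀ : (Fin n → Bool) → ℕ) (N₀ l₀ : ℕ), Rk N₀ l₀ D Φ₀ →
        ∃ (Φ : (Fin n → Bool) → ℕ) (N : ℕ), Rk N (l₀ + a.nots) D Φ ∧
        (∀ x y, (∀ i, x i = true → y i = true) → Φ y = Φ x → Φ₀ y = Φ₀ x) ∧
        Giv Φ (fun x => a.eval x) a.depth ∧
        ∀ x y, (∀ i, x i = true → y i = true) → Φ x < Φ y →
          Φ₀ x < Φ₀ y ∨ ∃ u ∈ a.ops, u x = false ∧ u y = true) →
      (∀ (Φ₀ : (Fin n → Bool) → ℕ) (N₀ l₀ : ℕ), Rk N₀ l₀ D Φ₀ →
        ∃ (Φ : (Fin n → Bool) → ℕ) (N : ℕ), Rk N (l₀ + b.nots) D Φ ∧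
        (∀ x y, (∀ i, x i = true → y i = true) → Φ y = Φ x → Φ₀ y = Φ₀ x) ∧
        Giv Φ (fun x => b.eval x) b.depth ∧
        ∀ x y, (∀ i, x i = true → y i = true) → Φ x < Φ y →
          Φ₀ x < Φ₀ y ∨ ∃ u ∈ b.ops, u x = false ∧ u y = true) →
      ∀ (Φ₀ : (Fin n → Bool) → ℕ) (N₀ l₀ : ℕ), Rk N₀ l₀ D Φ₀ →
        ∃ (Φ : (Fin n → Bool) → ℕ) (N : ℕ), Rk N (l₀ + (a.nots + b.nots)) D Φ ∧
        (∀ x y, (∀ i, x i = true → y i = true) → Φ y = Φ x → Φ₀ y = Φ₀ x) ∧
        Giv Φ (fun x => a.eval x) a.depth ∧ Giv Φ (fun x => b.eval x) b.depth ∧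
        ∀ x y, (∀ i, x i = true → y i = true) → Φ x < Φ y →
          Φ₀ x < Φ₀ y ∨ ∃ u ∈ a.ops ++ b.ops, u x = false ∧ u y = true := by
    intro a b ha hb Φ₀ N₀ l₀ h₀
    obtain ⟨Φ₁, N₁, h1, h2, h3, h4⟩ := ha Φ₀ N₀ l₀ h₀
    obtain ⟨Φ₂, N₂, h5, h6, h7, h8⟩ := hb Φ₁ N₁ _ h1
    refine ⟨Φ₂, N₂, by rw [← add_assoc]; exact h5,
      fun x y hxy he => h2 x y hxy (h6 x y hxy he), ?_, h7, ?_⟩
    · intro x₀
      obtain ⟨G, hG1, hG2⟩ := h3 x₀
      exact ⟨G, hG1, fun y hy he => hG2 y hy (h6 x₀ y hy he)⟩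
    · intro x y hxy hlt
      rcases h8 x y hxy hlt with h | ⟨u, hu, hux, huy⟩
      · rcases h4 x y hxy h with h | ⟨u, hu, hux, huy⟩
        · exact Or.inl h
        · exact Or.inr ⟨u, List.mem_append.mpr (Or.inl hu), hux, huy⟩
      · exact Or.inr ⟨u, List.mem_append.mpr (Or.inr hu), hux, huy⟩
  intro F
  induction F with
  | inp i =>
    intro _ Φ₀ N₀ l₀ h₀
    exact ⟨Φ₀, N₀, h₀, fun _ _ _ h => h,
      fun _ => ⟨MF.inp i, Nat.zero_le _, fun _ _ _ => rfl⟩, fun _ _ _ h => Or.inl h⟩
  | cst b =>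
    intro _ Φ₀ N₀ l₀ h₀
    exact ⟨Φ₀, N₀, h₀, fun _ _ _ h => h,
      fun _ => ⟨MF.cst b, Nat.zero_le _, fun _ _ _ => rfl⟩, fun _ _ _ h => Or.inl h⟩
  | and a b iha ihb =>
    intro hd Φ₀ N₀ l₀ h₀
    simp only [depth] at hd
    obtain ⟨Φ, N, h1, h2, h3, h4, h5⟩ := two a b (iha (by omega)) (ihb (by omega)) Φ₀ N₀ l₀ h₀
    refine ⟨Φ, N, h1, h2, ?_, h5⟩
    intro x₀
    obtain ⟨A, hA, hA'⟩ := h3 x₀
    obtain ⟨B, hB, hB'⟩ := h4 x₀
    refine ⟨MF.and A B, by simp only [MF.depth, depth]; omega, fun y hy hΦy => ?_⟩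
    simp only [MF.eval, eval]
    rw [hA' y hy hΦy, hB' y hy hΦy]
  | or a b iha ihb =>
    intro hd Φ₀ N₀ l₀ h₀
    simp only [depth] at hd
    obtain ⟨Φ, N, h1, h2, h3, h4, h5⟩ := two a b (iha (by omega)) (ihb (by omega)) Φ₀ N₀ l₀ h₀
    refine ⟨Φ, N, h1, h2, ?_, h5⟩
    intro x₀
    obtain ⟨A, hA, hA'⟩ := h3 x₀
    obtain ⟨B, hB, hB'⟩ := h4 x₀
    refine ⟨MF.or A B, by simp only [MF.depth, depth]; omega, fun y hy hΦy => ?_⟩
    simp only [MF.eval, eval]
    rw [hA' y hy hΦy, hB' y hy hΦy]
  | not a iha =>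
    intro hd Φ₀ N₀ l₀ h₀
    simp only [depth] at hd
    obtain ⟨Φ₁, N₁, h1, h2, h3, h4⟩ := iha (by omega) Φ₀ N₀ l₀ h₀
    have hus : ∀ u ∈ [fun x => a.eval x], Giv Φ₁ u D := by
      intro u hu
      rw [List.mem_singleton.mp hu]
      exact h3.weaken (by omega)
    refine ⟨stepRank Φ₁ [fun x => a.eval x], _, h1.step _ hus, ?_, ?_, ?_⟩
    · intro x y hxy he
      exact h2 x y hxy (h1.step_eq hus hxy he).1
    · intro x₀
      refine ⟨MF.cst (! a.eval x₀), Nat.zero_le _, fun y hy hy' => ?_⟩
      have h5 := (h1.step_eq hus hy hy').2 _ (List.mem_singleton.mpr rfl)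
      simp only [MF.eval, eval]
      rw [← h5]
    · intro x y hxy hlt
      rw [(stepRank_lt_iff (h1.mono x y hxy)
        (fun heq u hu => (hus u hu).mono hxy heq)).2] at hlt
      rcases hlt with h | ⟨_, u, hu, hux, huy⟩
      · rcases h4 x y hxy h with h | ⟨u, hu, hux, huy⟩
        · exact Or.inl h
        · exact Or.inr ⟨u, List.mem_append.mpr (Or.inl hu), hux, huy⟩
      · exact Or.inr ⟨u, List.mem_append.mpr (Or.inr hu), hux, huy⟩

/-! ### Counting along a chain -/

/-- number of steps of the sequence at which `u` grows -/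
def inc (x : ℕ → Fin n → Bool) (L : ℕ) (u : (Fin n → Bool) → Bool) : ℕ :=
  ((Finset.range L).filter (fun i => u (x i) = false ∧ u (x (i + 1)) = true)).card

/-- number of steps of the sequence at which `u` falls -/
def dec (x : ℕ → Fin n → Bool) (L : ℕ) (u : (Fin n → Bool) → Bool) : ℕ :=
  ((Finset.range L).filter (fun i => u (x i) = true ∧ u (x (i + 1)) = false)).card

theorem inc_dec (x : ℕ → Fin n → Bool) (u : (Fin n → Bool) → Bool) : ∀ L : ℕ,
    inc x L u + (if u (x 0) = true then 1 else 0) =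
      dec x L u + (if u (x L) = true then 1 else 0) := by
  intro L
  induction L with
  | zero => simp [inc, dec]
  | succ L ih =>
    have h1 : inc x (L + 1) u =
        inc x L u + (if u (x L) = false ∧ u (x (L + 1)) = true then 1 else 0) := by
      unfold inc
      rw [Finset.range_add_one, Finset.filter_insert]
      split_ifs
      · rw [Finset.card_insert_of_notMem (by simp)]
      · rfl
    have h2 : dec x (L + 1) u =
        dec x L u + (if u (x L) = true ∧ u (x (L + 1)) = false then 1 else 0) := by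
      unfold dec
      rw [Finset.range_add_one, Finset.filter_insert]
      split_ifs
      · rw [Finset.card_insert_of_notMem (by simp)]
      · rfl
    rw [h1, h2]
    cases h3 : u (x L) <;> cases h4 : u (x (L + 1)) <;> simp only [h3] at ih <;> simp at ih ⊢ <;>
      omega

theorem inc_le (x : ℕ → Fin n → Bool) (u : (Fin n → Bool) → Bool) (L : ℕ) :
    inc x L u ≤ dec x L u + 1 := by
  have := inc_dec x u L
  split_ifs at this <;> omega

theorem dec_le_nots (x : ℕ → Fin n → Bool) (L : ℕ)
    (hx : ∀ i < L, ∀ j, x i j = true → x (i + 1) j = true) (F : Fm n) :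
    dec x L (fun x => F.eval x) ≤ F.nots := by
  induction F with
  | inp j =>
    unfold dec
    rw [Finset.card_eq_zero.mpr]
    · exact Nat.zero_le _
    · rw [Finset.filter_eq_empty_iff]
      intro i hi
      simp only [eval]
      rintro ⟨h1, h2⟩
      rw [hx i (Finset.mem_range.mp hi) j h1] at h2
      exact absurd h2 (by simp)
  | cst b =>
    unfold dec
    rw [Finset.card_eq_zero.mpr]
    · exact Nat.zero_le _
    · rw [Finset.filter_eq_empty_iff]
      intro i _
      simp only [eval]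
      rintro ⟨h1, h2⟩
      rw [h1] at h2
      exact absurd h2 (by simp)
  | and a b iha ihb =>
    simp only [nots]
    refine le_trans ?_ (Nat.add_le_add iha ihb)
    unfold dec
    refine le_trans (Finset.card_le_card ?_) (Finset.card_union_le _ _)
    intro i hi
    simp only [Finset.mem_filter, Finset.mem_union, eval] at hi ⊢
    obtain ⟨h0, h1, h2⟩ := hi
    rw [Bool.and_eq_true] at h1
    rw [Bool.and_eq_false_iff] at h2
    rcases h2 with h2 | h2
    · exact Or.inl ⟨h0, h1.1, h2⟩
    · exact Or.inr ⟨h0, h1.2, h2⟩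
  | or a b iha ihb =>
    simp only [nots]
    refine le_trans ?_ (Nat.add_le_add iha ihb)
    unfold dec
    refine le_trans (Finset.card_le_card ?_) (Finset.card_union_le _ _)
    intro i hi
    simp only [Finset.mem_filter, Finset.mem_union, eval] at hi ⊢
    obtain ⟨h0, h1, h2⟩ := hi
    rw [Bool.or_eq_true] at h1
    rw [Bool.or_eq_false_iff] at h2
    rcases h1 with h1 | h1
    · exact Or.inl ⟨h0, h1, h2.1⟩
    · exact Or.inr ⟨h0, h1, h2.2⟩
  | not a iha =>
    simp only [nots]
    have h1 : dec x L (fun x => (Fm.not a).eval x) = inc x L (fun x => a.eval x) := by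
      unfold dec inc
      congr 1
      ext i
      simp only [Finset.mem_filter, eval, Bool.not_eq_true', Bool.not_eq_false']
    rw [h1]
    have := inc_le x (fun x => a.eval x) L
    omega

theorem sum_inc_le (x : ℕ → Fin n → Bool) (L : ℕ)
    (hx : ∀ i < L, ∀ j, x i j = true → x (i + 1) j = true) (F : Fm n) :
    (F.ops.map (inc x L)).sum ≤ F.nots * F.depth := by
  induction F with
  | inp j => simp [ops]
  | cst b => simp [ops]
  | and a b iha ihb =>
    simp only [ops, List.map_append, List.sum_append, nots, depth, Nat.add_mul]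
    refine Nat.add_le_add (iha.trans ?_) (ihb.trans ?_)
    · exact Nat.mul_le_mul_left _ (by omega)
    · exact Nat.mul_le_mul_left _ (by omega)
  | or a b iha ihb =>
    simp only [ops, List.map_append, List.sum_append, nots, depth, Nat.add_mul]
    refine Nat.add_le_add (iha.trans ?_) (ihb.trans ?_)
    · exact Nat.mul_le_mul_left _ (by omega)
    · exact Nat.mul_le_mul_left _ (by omega)
  | not a iha =>
    simp only [ops, List.map_append, List.sum_append, nots, depth, List.map_cons, List.map_nil,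
      List.sum_cons, List.sum_nil]
    have h1 := inc_le x (fun x => a.eval x) L
    have h2 := dec_le_nots x L hx a
    have h3 : (a.nots + 1) * (a.depth + 1) = a.nots * a.depth + a.nots + a.depth + 1 := by ring
    omega

/-- if at every step one of the functions in the list grows, the number of steps is at most the
total growth -/
theorem steps_le (x : ℕ → Fin n → Bool) (L : ℕ) : ∀ us : List ((Fin n → Bool) → Bool),
    (∀ i < L, ∃ u ∈ us, u (x i) = false ∧ u (x (i + 1)) = true) →
      L ≤ (us.map (inc x L)).sum := by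
  classical
  intro us h
  have key : ∀ us : List ((Fin n → Bool) → Bool),
      ((Finset.range L).filter (fun i => ∃ u ∈ us, u (x i) = false ∧ u (x (i + 1)) = true)).card ≤
        (us.map (inc x L)).sum := by
    intro us
    induction us with
    | nil => simp
    | cons u us ih =>
      rw [List.map_cons, List.sum_cons]
      refine le_trans ?_ (Nat.add_le_add_left ih _)
      unfold inc
      refine le_trans (Finset.card_le_card ?_) (Finset.card_union_le _ _)
      intro i hi
      simp only [Finset.mem_filter, Finset.mem_union, List.mem_cons, exists_eq_or_imp] at hi ⊢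
      rcases hi.2 with h2 | h2
      · exact Or.inl ⟨hi.1, h2⟩
      · exact Or.inr ⟨hi.1, h2⟩
  have h1 := key us
  rw [Finset.filter_true_of_mem (fun i hi => h i (Finset.mem_range.mp hi)),
    Finset.card_range] at h1
  exact h1

end Fm

namespace NegOr

/-- filling the blocks one after the other, with a jump of the rank each time -/
theorem or_chain {m : ℕ} {E : Type} (g : (E → Bool) → Bool) (hg0 : g (fun _ => false) = false)
    {N l d p : ℕ} {Φ : (Fin m × E → Bool) → ℕ} (hΦ : Rk N l d Φ) (hl : l ≤ 2 ^ p)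
    (hsep : ∀ x y : Fin m × E → Bool, (∀ v, x v = true → y v = true) →
      (∀ i, g (fun e => x (i, e)) = false) → (∃ i, g (fun e => y (i, e)) = true) → Φ x ≠ Φ y)
    (hg : ∀ F : MF E, F.depth ≤ d + p → ∃ x, F.eval x ≠ g x) :
    ∃ x : ℕ → Fin m × E → Bool, ∀ i < m,
      (∀ v, x i v = true → x (i + 1) v = true) ∧ Φ (x i) < Φ (x (i + 1)) := by
  have claim : ∀ j ≤ m, ∃ x : ℕ → Fin m × E → Bool,
      (∀ i < j, (∀ v, x i v = true → x (i + 1) v = true) ∧ Φ (x i) < Φ (x (i + 1))) ∧
      (∀ i, g (fun e => x j (i, e)) = false) ∧ (∀ v, j ≤ v.1.1 → x j v = false) := by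
    intro j
    induction j with
    | zero =>
      exact fun _ => ⟨fun _ _ => false, fun i hi => absurd hi (Nat.not_lt_zero _),
        fun _ => hg0, fun _ _ => rfl⟩
    | succ j ih =>
      intro hj
      obtain ⟨x, h0, h1, h2⟩ := ih (by omega)
      obtain ⟨i₀, hi₀⟩ : ∃ i₀ : Fin m, i₀.1 = j := ⟨⟨j, hj⟩, rfl⟩
      obtain ⟨L, h4, h5, h6⟩ := hΦ.jump (x j)
      obtain ⟨F, h7, h8⟩ := MF.exists_bigOr d p L (h4.trans hl) h5
      obtain ⟨sub, hsub⟩ : ∃ sub : Fin m × E → MF E, sub = fun v =>
        if v.1 = i₀ then MF.inp v.2 else MF.cst (x j v) := ⟨_, rfl⟩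
      have hsubd : ∀ v, (sub v).depth ≤ 0 := by
        intro v
        rw [hsub]
        dsimp only
        split_ifs <;> exact le_rfl
      have hG : ∀ z : E → Bool, (F.bind sub).eval z =
          F.eval (fun v => if v.1 = i₀ then z v.2 else x j v) := by
        intro z
        rw [MF.eval_bind]
        congr 1
        funext v
        rw [hsub]
        dsimp only
        split_ifs <;> rfl
      obtain ⟨z, hz⟩ := hg (F.bind sub) (by
        have := MF.depth_bind_le sub 0 hsubd F
        omega)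
      rw [hG] at hz
      obtain ⟨y, hy⟩ : ∃ y : Fin m × E → Bool, y = fun v => if v.1 = i₀ then z v.2 else x j v :=
        ⟨_, rfl⟩
      rw [← hy] at hz
      have hle : ∀ v : Fin m × E, x j v = true → y v = true := by
        intro v hv
        rw [hy]
        dsimp only
        by_cases hv1 : v.1 = i₀
        · rw [h2 v (by rw [hv1, hi₀])] at hv
          exact absurd hv (by simp)
        · rw [if_neg hv1]
          exact hv
      have hblk : ∀ i, g (fun e => y (i, e)) = if i = i₀ then g z else false := by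
        intro i
        rw [hy]
        by_cases hi : i = i₀
        · simp [hi]
        · simpa [hi] using h1 i
      have hiff : F.eval y = true ↔ Φ (x j) < Φ y := by
        rw [h8, h6 _ hle]
      cases hgz : g z with
      | true =>
        exfalso
        apply hz
        rw [hgz, hiff]
        apply lt_of_le_of_ne (hΦ.mono _ _ hle)
        apply hsep _ _ hle h1
        exact ⟨i₀, by rw [hblk, if_pos rfl, hgz]⟩
      | false =>
        rw [hgz] at hz
        have hlt := hiff.1 (by simpa using hz)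
        refine ⟨fun i => if i ≤ j then x i else y, ?_, ?_, ?_⟩
        · intro i hi
          rcases Nat.lt_succ_iff_lt_or_eq.mp hi with h | h
          · have e1 : i ≤ j := h.le
            have e2 : i + 1 ≤ j := h
            simp only [e1, e2, if_true]
            exact h0 i h
          · subst h
            have e2 : ¬ i + 1 ≤ i := by omega
            simp only [le_refl, if_true, e2, if_false]
            exact ⟨hle, hlt⟩
        · intro i
          have e2 : ¬ j + 1 ≤ j := by omega
          simp only [e2, if_false]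
          rw [hblk, hgz]
          simp
        · intro v hv
          have e2 : ¬ j + 1 ≤ j := by omega
          simp only [e2, if_false]
          rw [hy]
          dsimp only
          have hne : v.1 ≠ i₀ := by
            intro h
            rw [h] at hv
            omega
          rw [if_neg hne]
          exact h2 v (by omega)
  obtain ⟨x, h0, _, _⟩ := claim m le_rfl
  exact ⟨x, h0⟩

/-- The lifting theorem for formulas. -/
theorem formula_lift {m n : ℕ} {E : Type} (g : (E → Bool) → Bool)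
    (hg0 : g (fun _ => false) = false) (ψ : Fin n → Fin m × E) (F : Fm n)
    (hF : ∀ x : Fin m × E → Bool, (F.eval (fun j => x (ψ j)) = true ↔
      ∃ i : Fin m, g (fun e => x (i, e)) = true)) (p : ℕ)
    (hp : F.nots + 1 ≤ 2 ^ p)
    (hg : ∀ G : MF E, G.depth ≤ F.depth + p → ∃ x, G.eval x ≠ g x) :
    m ≤ F.nots * (F.depth + 1) + 1 := by
  have h₀ : Rk 1 0 F.depth (fun _ : Fin n → Bool => 0) :=
    ⟨fun _ => by simp, fun _ _ _ => le_rfl, fun x₀ => ⟨[], Nat.zero_le _, by simp, by simp⟩⟩
  obtain ⟨Φ₁, N₁, h1, _, h3, h4⟩ := F.exists_rank F.depth le_rfl _ 1 0 h₀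
  have hus : ∀ u ∈ [fun x => F.eval x], Giv Φ₁ u F.depth := by
    intro u hu
    rw [List.mem_singleton.mp hu]
    exact h3
  obtain ⟨x, hx⟩ := or_chain g hg0 ((h1.step _ hus).comp ψ) (p := p) (by
    simp only [List.length_singleton]
    omega) (by
    intro x y hxy hx hy heq
    have h5 := (h1.step_eq hus (fun j => hxy (ψ j)) heq.symm).2 _ (List.mem_singleton.mpr rfl)
    have h2 := (hF y).2 hy
    have h6 : F.eval (fun j => y (ψ j)) = F.eval (fun j => x (ψ j)) := h5
    rw [h6, hF x] at h2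
    obtain ⟨i, hi⟩ := h2
    rw [hx i] at hi
    exact absurd hi (by simp)) hg
  have hmono : ∀ i < m, ∀ j, x i (ψ j) = true → x (i + 1) (ψ j) = true :=
    fun i hi j => (hx i hi).1 (ψ j)
  have hstep := Fm.steps_le (fun i j => x i (ψ j)) m (F.ops ++ [fun x => F.eval x]) (by
    intro i hi
    have hlt := (hx i hi).2
    rw [(stepRank_lt_iff (h1.mono _ _ (hmono i hi))
      (fun heq u hu => (hus u hu).mono (hmono i hi) heq)).2] at hlt
    rcases hlt with h | ⟨_, u, hu, hux, huy⟩
    · rcases h4 _ _ (hmono i hi) h with h | ⟨u, hu, hux, huy⟩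
      · exact absurd h (lt_irrefl _)
      · exact ⟨u, List.mem_append.mpr (Or.inl hu), hux, huy⟩
    · exact ⟨u, List.mem_append.mpr (Or.inr hu), hux, huy⟩)
  rw [List.map_append, List.sum_append] at hstep
  have h6 := Fm.sum_inc_le (fun i j => x i (ψ j)) m hmono F
  have h7 := Fm.inc_le (fun i j => x i (ψ j)) (fun x => F.eval x) m
  have h8 := Fm.dec_le_nots (fun i j => x i (ψ j)) m hmono F
  simp only [List.map_cons, List.map_nil, List.sum_cons, List.sum_nil] at hstep
  have h9 : F.nots * (F.depth + 1) = F.nots * F.depth + F.nots := by ring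
  omega

/-- Key statement: formulas equivalent to a small monotone circuit are deep or have many NOT
gates. -/
theorem key_formula (H m : ℕ) (hH : 1 ≤ H) :
    ∃ (n : ℕ) (M : Circuit n), M.nots = 0 ∧
      M.size ≤ m * (4 * ((H + 1) ^ 2 * ((H + 1) ^ 40) ^ 3 + (H + 1) ^ 40) + 2) ∧
      ∀ F : Fm n, (∀ x, F.eval x = M.eval x) → ∀ p : ℕ,
        F.nots + 1 ≤ 2 ^ p → F.depth + p < H → m ≤ F.nots * (F.depth + 1) + 1 := by
  obtain ⟨φ⟩ : Nonempty (Fin m × RVar H ((H + 1) ^ 40) ≃
      Fin (Fintype.card (Fin m × RVar H ((H + 1) ^ 40)))) := ⟨Fintype.equivFin _⟩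
  obtain ⟨M, hM1, hM2, hM3⟩ := exists_or_gad_circuit m H ((H + 1) ^ 40) _ φ
  refine ⟨_, M, hM1, hM2, ?_⟩
  intro F hF p hp hd
  refine formula_lift (gad H ((H + 1) ^ 40)) (gad_false _ _) φ.symm F ?_ p hp ?_
  · intro x
    rw [hF, hM3]
    simp only [Equiv.symm_apply_apply]
  · intro G hG
    by_contra hcon
    push Not at hcon
    have := gad_lower H hH G hcon
    omega

end NegOr

end Pool.Agent.BoolCirc
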