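import Pool.Agent.NegOr.Query

/-!
The disjunction of copies of an arbitrary function `g` of large monotone depth: lower bounds for
adaptive monotone queries, for circuits with NOT gates and for formulas.
-/

namespace Pool.Agent.BoolCirc

namespace NegOr

/-- a small circuit without NOT gates for the disjunction of `g` on `m` blocks -/
theorem exists_or_circuit_gen {k : ℕ} (g : (Fin k → Bool) → Bool)
    (hcirc : ∀ (n : ℕ) (emb : Fin k → Fin n) (C : Circuit n), ∃ C' : Circuit n,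
      ExtN (4 * k) 0 C C' ∧ ∃ d, Avail C' (fun X => g (fun e => X (emb e))) d)
    (m n : ℕ) (φ : Fin m × Fin k → Fin n) :
    ∃ C : Circuit n, C.nots = 0 ∧ C.size ≤ m * (4 * k + 1) ∧
      ∀ X, (C.eval X = true ↔ ∃ i : Fin m, g (fun e => X (φ (i, e))) = true) := by
  have hind : ∀ j ≤ m, ∃ (C : Circuit n) (d : ℕ),
      ExtN (j * (4 * k + 1)) 0 (Circuit.empty n) C ∧
      Avail C (fun X => decide (∃ i : Fin m, i.1 < j ∧ g (fun e => X (φ (i, e))) = true))
        d := by
    intro j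
    induction j with
    | zero =>
      intro _
      refine ⟨Circuit.empty n, 0, (ExtN.refl _).weaken (Nat.zero_le _) le_rfl,
        (Avail.const _ false _).congr ?_⟩
      intro X
      simp
    | succ j ih =>
      intro hk
      obtain ⟨C1, d1, h1, h2⟩ := ih (by omega)
      obtain ⟨C2, h3, d2, h4⟩ := hcirc n (fun e => φ (⟨j, hk⟩, e)) C1
      obtain ⟨C3, h5, h6⟩ := extN_or (h3.1 _ _ h2) h4
      refine ⟨C3, _, ((h1.trans h3).trans h5).weaken ?_ (by omega), h6.congr ?_⟩
      · rw [Nat.add_mul j 1, Nat.one_mul]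
        omega
      · intro X
        rw [Bool.eq_iff_iff]
        simp only [decide_eq_true_eq, Bool.or_eq_true]
        constructor
        · rintro ⟨i, hi, hX⟩
          rcases Nat.lt_succ_iff_lt_or_eq.mp hi with hlt | heq
          · exact Or.inl ⟨i, hlt, hX⟩
          · have : i = ⟨j, hk⟩ := Fin.ext heq
            subst this
            exact Or.inr hX
        · rintro (⟨i, hi, hX⟩ | hX)
          · exact ⟨i, by omega, hX⟩
          · exact ⟨⟨j, hk⟩, Nat.lt_succ_self j, hX⟩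
  obtain ⟨C1, d1, h1, h2⟩ := hind m le_rfl
  obtain ⟨C3, g1, -, g3, g4⟩ := h2.exists_circuit_nots
  refine ⟨C3, ?_, ?_, ?_⟩
  · rw [g4]
    have := h1.2.2
    rw [nots_empty] at this
    omega
  · rw [g3]
    have h5 := h1.2.1
    have h6 : (Circuit.empty n).size = 0 := rfl
    rw [h6] at h5
    omega
  · intro X
    rw [g1, decide_eq_true_eq]
    constructor
    · rintro ⟨i, _, hX⟩
      exact ⟨i, hX⟩
    · rintro ⟨i, hX⟩
      exact ⟨i, i.2, hX⟩

/-- everything that is proved about the disjunction of `m` copies of `g` -/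
theorem key_gen {k : ℕ} (g : (Fin k → Bool) → Bool) (hg0 : g (fun _ => false) = false)
    (lam : ℕ) (hlam : ∀ F : MF (Fin k), (∀ y, F.eval y = g y) → lam ≤ F.depth)
    (hcirc : ∀ (n : ℕ) (emb : Fin k → Fin n) (C : Circuit n), ∃ C' : Circuit n,
      ExtN (4 * k) 0 C C' ∧ ∃ d, Avail C' (fun X => g (fun e => X (emb e))) d) (m : ℕ) :
    ∃ (n : ℕ) (M : Circuit n), M.nots = 0 ∧ M.size ≤ m * (4 * k + 1) ∧
      (∀ (d p : ℕ) (ws : List ℕ), Queries d M.eval ws Set.univ → ws.sum ≤ 2 ^ p → d + p < lam →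
        m < (ws.map (fun w => w + 1)).prod) ∧
      (∀ C : Circuit n, (∀ x, C.eval x = M.eval x) → ∀ h p r : ℕ, (∀ j, C.notLevel j ≤ r) →
        C.deepNots h + 2 ^ h ≤ 2 ^ p → C.depth + p < lam →
        ∃ t : ℕ → ℕ, ∑ s ∈ Finset.range r, t s ≤ C.deepNots h ∧
          m < (∏ s ∈ Finset.range r, (t s + 1)) * (2 ^ h + 1)) ∧
      (∀ F : Fm n, (∀ x, F.eval x = M.eval x) → ∀ p : ℕ,
        F.nots + 1 ≤ 2 ^ p → F.depth + p < lam → m ≤ F.nots * (F.depth + 1) + 1) := by
  obtain ⟨φ⟩ : Nonempty (Fin m × Fin k ≃ Fin (Fintype.card (Fin m × Fin k))) :=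
    ⟨Fintype.equivFin _⟩
  obtain ⟨M, hM1, hM2, hM3⟩ := exists_or_circuit_gen g hcirc m _ φ
  have hMx : ∀ x : Fin m × Fin k → Bool,
      (M.eval (fun j => x (φ.symm j)) = true ↔ ∃ i : Fin m, g (fun e => x (i, e)) = true) := by
    intro x
    rw [hM3]
    simp only [Equiv.symm_apply_apply]
  have hhard : ∀ d : ℕ, d < lam → ∀ F : MF (Fin k), F.depth ≤ d → ∃ x, F.eval x ≠ g x := by
    intro d hd F hF
    by_contra hcon
    push Not at hcon
    have := hlam F hcon
    omega
  refine ⟨_, M, hM1, hM2, ?_, ?_, ?_⟩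
  · intro d p ws hq hp hd
    have h₀ : Rk 1 0 d (fun _ : Fin (Fintype.card (Fin m × Fin k)) → Bool => 0) :=
      ⟨fun _ => by simp, fun _ _ _ => le_rfl, fun x₀ => ⟨[], Nat.zero_le _, by simp, by simp⟩⟩
    obtain ⟨Φ, hΦ, hsep⟩ := exists_rank_queries d M.eval ws Unit (fun _ => ()) _ 1 0 h₀
      (fun _ _ _ _ => rfl) (fun k' => by
        have : {x : Fin (Fintype.card (Fin m × Fin k)) → Bool | () = k'} = Set.univ := by
          ext x
          simp
        rw [this]
        exact hq)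
    rw [one_mul, zero_add] at hΦ
    refine or_lift g hg0 (hΦ.comp φ.symm) hp ?_ (hhard (d + p) hd)
    intro x y hxy hx hy heq
    have h1 := hsep _ _ (fun j => hxy (φ.symm j)) heq.symm
    have h2 := (hMx y).2 hy
    rw [h1, hMx x] at h2
    obtain ⟨i, hi⟩ := h2
    rw [hx i] at hi
    exact absurd hi (by simp)
  · intro C hC h p r hr hp hd
    obtain ⟨Φ, t, ht, hΦ, hsep⟩ := C.exists_rank_profile h r hr
    refine ⟨t, ht, or_lift g hg0 (hΦ.comp φ.symm) hp ?_ (hhard _ hd)⟩
    intro x y hxy hx hy heq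
    have h1 := hsep _ _ (fun j => hxy (φ.symm j)) heq
    rw [hC, hC] at h1
    have h2 := (hMx y).2 hy
    rw [← h1, hMx x] at h2
    obtain ⟨i, hi⟩ := h2
    rw [hx i] at hi
    exact absurd hi (by simp)
  · intro F hF p hp hd
    refine formula_lift g hg0 φ.symm F ?_ p hp (hhard _ hd)
    intro x
    rw [hF, hMx]

end NegOr

end Pool.Agent.BoolCirc
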