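import Pool.Agent.NegOr.Rank

/-!
The rank function of a circuit built level by level: all NOT gates with the same number of NOT
gates below them are recorded at once, which costs only a factor of their number plus one.
-/

namespace Pool.Agent.BoolCirc

variable {n : ℕ}

theorem Circuit.notLevel_eq (C : Circuit n) (i : Fin C.size) :
    C.notLevel i = (C.gate i).notLevel (fun j => C.notLevel ⟨j.1, j.2.trans i.2⟩) := by
  rw [Circuit.notLevel]

theorem Circuit.notLevel_le (C : Circuit n) : ∀ (i : ℕ) (hi : i < C.size),
    C.notLevel ⟨i, hi⟩ ≤ i + 1 := by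
  intro i
  induction i using Nat.strong_induction_on with
  | _ i ih =>
    intro hi
    have aux : ∀ o : Src n i, o.notLevel (fun j => C.notLevel ⟨j.1, j.2.trans hi⟩) ≤ i := by
      intro o
      cases o with
      | input k => exact Nat.zero_le _
      | const b => exact Nat.zero_le _
      | gate j => exact (ih j.1 j.2 _).trans j.2
    rw [C.notLevel_eq]
    cases C.gate ⟨i, hi⟩ with
    | and a b =>
      have h1 := aux a
      have h2 := aux b
      simp only [Gate.notLevel]
      omega
    | or a b =>
      have h1 := aux a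
      have h2 := aux b
      simp only [Gate.notLevel]
      omega
    | not a =>
      have h1 := aux a
      simp only [Gate.notLevel]
      omega

open Classical in
/-- the NOT gates in `R` at level `i` -/
noncomputable def Circuit.levelNots (C : Circuit n) (R : Fin C.size → Prop) (i : ℕ) :
    Finset (Fin C.size) :=
  Finset.univ.filter (fun j => (C.gate j).isNot = true ∧ R j ∧ C.notLevel j = i)

/-- the rank function built level by level -/
theorem Circuit.exists_rank_level (C : Circuit n) (R : Fin C.size → Prop)
    (hR : ∀ i j : Fin C.size, R i → 0 < (C.gate i).uses j.1 → R j) (D : ℕ)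
    (hD : ∀ i, R i → C.gateDepth i ≤ D) : ∀ i : ℕ,
    ∃ Φ : (Fin n → Bool) → ℕ,
      Rk (∏ s ∈ Finset.range i, ((C.levelNots R (s + 1)).card + 1))
        (∑ s ∈ Finset.range i, (C.levelNots R (s + 1)).card) D Φ ∧
      ∀ j : Fin C.size, R j → C.notLevel j ≤ i →
        Giv Φ (fun x => C.val x j) (C.gateDepth j) := by
  have hdep : ∀ j : Fin C.size, C.gateDepth j =
      (C.gate j).depth (fun k => C.gateDepth ⟨k.1, k.2.trans j.2⟩) := by
    intro j
    rw [Circuit.gateDepth]
  have hval : ∀ (x) (j : Fin C.size), C.val x j =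
      (C.gate j).eval x (fun k => C.val x ⟨k.1, k.2.trans j.2⟩) := by
    intro x j
    rw [Circuit.val]
  -- the induction over the gates of one level
  have main : ∀ (i : ℕ) (Φ : (Fin n → Bool) → ℕ),
      (∀ j : Fin C.size, R j → C.notLevel j ≤ i → (C.gate j).isNot = true →
        Giv Φ (fun x => C.val x j) (C.gateDepth j)) →
      ∀ (j : ℕ) (hj : j < C.size), R ⟨j, hj⟩ → C.notLevel ⟨j, hj⟩ ≤ i →
        Giv Φ (fun x => C.val x ⟨j, hj⟩) (C.gateDepth ⟨j, hj⟩) := by
    intro i Φ hnot j
    induction j using Nat.strong_induction_on with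
    | _ j ih =>
      intro hj hRj hlev
      have aux : ∀ o ∈ (C.gate ⟨j, hj⟩).operands,
          o.notLevel (fun k => C.notLevel ⟨k.1, k.2.trans hj⟩) ≤ i →
          Giv Φ (fun x => o.eval x (fun k => C.val x ⟨k.1, k.2.trans hj⟩))
            (o.depth (fun k => C.gateDepth ⟨k.1, k.2.trans hj⟩)) := by
        intro o ho hlo
        cases o with
        | input k => exact fun _ => ⟨MF.inp k, Nat.zero_le _, fun _ _ _ => rfl⟩
        | const b => exact fun _ => ⟨MF.cst b, Nat.zero_le _, fun _ _ _ => rfl⟩
        | gate k =>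
          exact ih k.1 k.2 (k.2.trans hj)
            (hR _ _ hRj ((C.gate ⟨j, hj⟩).uses_pos_of_mem k ho)) hlo
      have hd := hdep ⟨j, hj⟩
      have hv := fun x => hval x ⟨j, hj⟩
      have hl := C.notLevel_eq ⟨j, hj⟩
      cases hg : C.gate ⟨j, hj⟩ with
      | and a b =>
        rw [hg] at hd hv hl aux
        simp only [Gate.depth] at hd
        simp only [Gate.notLevel] at hl
        intro x₀
        obtain ⟨A, hA, hA'⟩ := aux a (by simp [Gate.operands]) (by omega) x₀
        obtain ⟨B, hB, hB'⟩ := aux b (by simp [Gate.operands]) (by omega) x₀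
        refine ⟨MF.and A B, ?_, fun y hy hΦy => ?_⟩
        · rw [hd]; simp only [MF.depth]; omega
        · show _ = C.val y ⟨j, hj⟩
          rw [hv]
          simp only [MF.eval, Gate.eval]
          rw [hA' y hy hΦy, hB' y hy hΦy]
      | or a b =>
        rw [hg] at hd hv hl aux
        simp only [Gate.depth] at hd
        simp only [Gate.notLevel] at hl
        intro x₀
        obtain ⟨A, hA, hA'⟩ := aux a (by simp [Gate.operands]) (by omega) x₀
        obtain ⟨B, hB, hB'⟩ := aux b (by simp [Gate.operands]) (by omega) x₀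
        refine ⟨MF.or A B, ?_, fun y hy hΦy => ?_⟩
        · rw [hd]; simp only [MF.depth]; omega
        · show _ = C.val y ⟨j, hj⟩
          rw [hv]
          simp only [MF.eval, Gate.eval]
          rw [hA' y hy hΦy, hB' y hy hΦy]
      | not a => exact hnot ⟨j, hj⟩ hRj hlev (by rw [hg]; rfl)
  intro i
  induction i with
  | zero =>
    refine ⟨fun _ => 0, ⟨fun _ => by simp, fun _ _ _ => le_rfl, fun x₀ =>
      ⟨[], Nat.zero_le _, by simp, by simp⟩⟩, fun j hRj hlev => ?_⟩
    refine main 0 _ ?_ j.1 j.2 hRj hlev
    intro k _ hk hnot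
    exfalso
    rw [C.notLevel_eq] at hk
    cases hg : C.gate k with
    | and a b => rw [hg] at hnot; simp [Gate.isNot] at hnot
    | or a b => rw [hg] at hnot; simp [Gate.isNot] at hnot
    | not a => rw [hg] at hk; simp [Gate.notLevel] at hk
  | succ i ih =>
    obtain ⟨Φ, hΦ, hgiv⟩ := ih
    obtain ⟨us, hus⟩ : ∃ us : List ((Fin n → Bool) → Bool),
        us = (C.levelNots R (i + 1)).toList.map (fun j => fun x => ! C.val x j) := ⟨_, rfl⟩
    have hlen : us.length = (C.levelNots R (i + 1)).card := by
      rw [hus, List.length_map, Finset.length_toList]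
    have hmem : ∀ j : Fin C.size, (C.gate j).isNot = true → R j → C.notLevel j = i + 1 →
        (fun x => ! C.val x j) ∈ us := by
      intro j h1 h2 h3
      rw [hus]
      refine List.mem_map.mpr ⟨j, ?_, rfl⟩
      rw [Finset.mem_toList]
      unfold Circuit.levelNots
      simp [h1, h2, h3]
    have hop : ∀ j : Fin C.size, (C.gate j).isNot = true → R j → C.notLevel j = i + 1 →
        Giv Φ (fun x => ! C.val x j) D := by
      intro j h1 h2 h3
      have hd := hdep j
      have hv := fun x => hval x j
      have hl := C.notLevel_eq j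
      have hDj := hD j h2
      cases hg : C.gate j with
      | and a b => rw [hg] at h1; simp [Gate.isNot] at h1
      | or a b => rw [hg] at h1; simp [Gate.isNot] at h1
      | not a =>
        have hRa : ∀ k : Fin j.1, a = Src.gate k → R ⟨k.1, k.2.trans j.2⟩ := by
          intro k hk
          refine hR j _ h2 ((C.gate j).uses_pos_of_mem k ?_)
          rw [hg, hk]
          simp [Gate.operands]
        rw [hg] at hd hv hl
        simp only [Gate.depth] at hd
        simp only [Gate.notLevel] at hl
        have heq : (fun x => ! C.val x j) =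
            fun x => a.eval x (fun k => C.val x ⟨k.1, k.2.trans j.2⟩) := by
          funext x
          rw [hv]
          simp [Gate.eval]
        rw [heq]
        cases a with
        | input k => exact fun _ => ⟨MF.inp k, Nat.zero_le _, fun _ _ _ => rfl⟩
        | const b => exact fun _ => ⟨MF.cst b, Nat.zero_le _, fun _ _ _ => rfl⟩
        | gate k =>
          simp only [Src.notLevel] at hl
          simp only [Src.depth] at hd
          exact (hgiv ⟨k.1, k.2.trans j.2⟩ (hRa k rfl) (by omega)).weaken (by omega)
    have husg : ∀ u ∈ us, Giv Φ u D := by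
      intro u hu
      rw [hus] at hu
      obtain ⟨j, hj, rfl⟩ := List.mem_map.mp hu
      rw [Finset.mem_toList] at hj
      unfold Circuit.levelNots at hj
      simp only [Finset.mem_filter, Finset.mem_univ, true_and] at hj
      exact hop j hj.1 hj.2.1 hj.2.2
    refine ⟨stepRank Φ us, ?_, fun j hRj hlev => ?_⟩
    · rw [Finset.prod_range_succ, Finset.sum_range_succ, ← hlen]
      exact hΦ.step us husg
    · refine main (i + 1) _ ?_ j.1 j.2 hRj hlev
      intro k hRk hk hnot x₀
      rcases Nat.lt_or_ge i (C.notLevel k) with hlt | hge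
      · have hmem' := hmem k hnot hRk (by omega)
        refine ⟨MF.cst (C.val x₀ k), Nat.zero_le _, fun y hy hy' => ?_⟩
        have h3 := (hΦ.step_eq husg hy hy').2 _ hmem'
        have h4 : (! C.val y k) = ! C.val x₀ k := h3
        have h5 : C.val y k = C.val x₀ k := by
          cases h6 : C.val y k <;> cases h7 : C.val x₀ k <;> simp [h6, h7] at h4 ⊢
        simp only [MF.eval]
        exact h5.symm
      · obtain ⟨F, h1, h2⟩ := hgiv k hRk hge x₀
        exact ⟨F, h1, fun y hy hy' => h2 y hy (hΦ.step_eq husg hy hy').1⟩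

/-- The rank function of a circuit that records level by level the NOT gates far from the output
and the nodes `h` gates below the output. -/
theorem Circuit.exists_rank_profile (C : Circuit n) (h r : ℕ)
    (hr : ∀ j : Fin C.size, C.notLevel j ≤ r) :
    ∃ (Φ : (Fin n → Bool) → ℕ) (t : ℕ → ℕ), ∑ s ∈ Finset.range r, t s ≤ C.deepNots h ∧
      Rk ((∏ s ∈ Finset.range r, (t s + 1)) * (2 ^ h + 1)) (C.deepNots h + 2 ^ h) C.depth Φ ∧
      ∀ x y, (∀ i, x i = true → y i = true) → Φ x = Φ y → C.eval x = C.eval y := by
  obtain ⟨R, hRdef⟩ : ∃ R : Fin C.size → Prop, R = fun j => ∃ h', h ≤ h' ∧ C.Above h' j :=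
    ⟨_, rfl⟩
  have hR : ∀ i j : Fin C.size, R i → 0 < (C.gate i).uses j.1 → R j := by
    intro i j hi hu
    rw [hRdef] at hi ⊢
    obtain ⟨h', h1, h2⟩ := hi
    exact ⟨h' + 1, by omega, i, h2, hu⟩
  have hD : ∀ i, R i → C.gateDepth i ≤ C.depth := by
    intro i hi
    rw [hRdef] at hi
    obtain ⟨h', h1, h2⟩ := hi
    have := Circuit.Above.depth_le C h' i h2
    omega
  have hcount : ∑ s ∈ Finset.range r, (C.levelNots R (s + 1)).card ≤ C.deepNots h := by
    classical
    rw [← Finset.card_biUnion]
    · unfold Circuit.deepNots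
      apply Finset.card_le_card
      intro j hj
      simp only [Finset.mem_biUnion] at hj
      obtain ⟨s, _, hj⟩ := hj
      unfold Circuit.levelNots at hj
      simp only [Finset.mem_filter, Finset.mem_univ, true_and, hRdef] at hj ⊢
      exact ⟨hj.1, hj.2.1⟩
    · intro s _ s' _ hss
      rw [Function.onFun, Finset.disjoint_left]
      intro j hj hj'
      unfold Circuit.levelNots at hj hj'
      simp only [Finset.mem_filter] at hj hj'
      apply hss
      omega
  obtain ⟨Φ, hΦ, hgiv⟩ := C.exists_rank_level R hR C.depth hD r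
  obtain ⟨fr, hf1, hf2, hf3⟩ := C.exists_front h
  have hus : ∀ u ∈ fr.map (fun o : Src n C.size => fun x => o.eval x (C.val x)),
      Giv Φ u C.depth := by
    intro u hu
    obtain ⟨o, ho, rfl⟩ := List.mem_map.mp hu
    cases o with
    | input k => exact fun _ => ⟨MF.inp k, Nat.zero_le _, fun _ _ _ => rfl⟩
    | const b => exact fun _ => ⟨MF.cst b, Nat.zero_le _, fun _ _ _ => rfl⟩
    | gate j =>
      have hj : R j := by
        rw [hRdef]
        exact ⟨h, le_rfl, hf2 j ho⟩
      exact (hgiv j hj (hr j)).weaken (hD j hj)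
  refine ⟨stepRank Φ (fr.map (fun o : Src n C.size => fun x => o.eval x (C.val x))),
    fun s => (C.levelNots R (s + 1)).card, hcount, (hΦ.step _ hus).weaken ?_ ?_, ?_⟩
  · rw [List.length_map]
    exact Nat.mul_le_mul_left _ (by omega)
  · rw [List.length_map]
    omega
  · intro x y hxy heq
    have h3 := (hΦ.step_eq hus hxy heq.symm).2
    apply hf3
    intro o ho
    exact (h3 _ (List.mem_map.mpr ⟨o, ho, rfl⟩)).symm

end Pool.Agent.BoolCirc
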