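import Pool.Agent.NegThr.G2
import Pool.Agent.NegThr.G3
import Pool.Agent.NegThr.H
import Pool.Agent.NegOr.Cover
import Pool.Agent.NegOr.OrAmp

/-!
The disjunction of layered reachability on disjoint blocks: a small monotone circuit for it, and a
lower bound for the number of NOT gates of every equivalent circuit of small depth.
-/

namespace Pool.Agent.BoolCirc

namespace NegOr

/-- no path without edges -/
theorem reach_false (l w : ℕ) : reach l w (fun _ => false) = false := by
  classical
  unfold reach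
  rw [decide_eq_false_iff_not]
  rintro ⟨p, -, -, h⟩
  exact Bool.false_ne_true (h ⟨0, Nat.succ_pos l⟩)

theorem reach_mono (l w : ℕ) (x y : EdgeVar l w → Bool) (h : ∀ e, x e = true → y e = true) :
    reach l w x = true → reach l w y = true := by
  classical
  unfold reach
  simp only [decide_eq_true_eq]
  rintro ⟨p, h1, h2, h3⟩
  exact ⟨p, h1, h2, fun i => h _ (h3 i)⟩

/-- reachability on the variables `emb` can be added with gates AND and OR only -/
theorem extN_reach {l w N : ℕ} (emb : EdgeVar l w → Fin N) (C : Circuit (0 + N)) :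
    ∃ C' : Circuit (0 + N), ExtN ((l + 1) * (w * (2 * w))) 0 C C' ∧
      Avail C' (fun X => reach l w (fun e => X (Fin.natAdd 0 (emb e)))) ((l + 1) * (w + 1)) := by
  obtain ⟨C', h1, h2⟩ := build_rr (m := 0) emb C (l + 1)
  refine ⟨C', h1, ?_⟩
  by_cases hw : 1 < w
  · refine (h2 ⟨1, hw⟩).congr ?_
    intro X
    rw [reach_eq, Bool.eq_iff_iff]
    simp only [decide_eq_true_eq]
    constructor
    · rintro ⟨b, hb, h⟩
      have : b = ⟨1, hw⟩ := Fin.ext hb
      rw [← this]; exact h
    · intro h
      exact ⟨⟨1, hw⟩, rfl, h⟩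
  · refine (Avail.const C' false _).congr ?_
    intro X
    rw [reach_eq, Bool.eq_iff_iff]
    simp only [decide_eq_true_eq, Bool.false_eq_true, iff_false, not_exists, not_and]
    intro b hb
    have := b.2
    omega

theorem nots_empty (n : ℕ) : (Circuit.empty n).nots = 0 := by
  unfold Circuit.nots
  rw [Finset.card_eq_zero]
  ext i
  exact i.elim0

/-- a small circuit without NOT gates for the disjunction of reachability on `m` blocks -/
theorem exists_or_circuit (m l w N : ℕ) (φ : Fin m × EdgeVar l w → Fin N) :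
    ∃ C : Circuit (0 + N), C.nots = 0 ∧ C.size ≤ m * (2 * (l + 1) * w ^ 2 + 2) ∧
      ∀ X, (C.eval X = true ↔
        ∃ i : Fin m, reach l w (fun e => X (Fin.natAdd 0 (φ (i, e)))) = true) := by
  set f : ℕ → (Fin (0 + N) → Bool) → Bool := fun i X =>
    if h : i < m then reach l w (fun e => X (Fin.natAdd 0 (φ (⟨i, h⟩, e)))) else false with hf
  obtain ⟨C1, h1, h2⟩ := extN_family m f ((l + 1) * (w + 1)) ((l + 1) * (w * (2 * w))) 0
    (Circuit.empty (0 + N)) (by
      intro i hi C' _
      obtain ⟨C'', h3, h4⟩ := extN_reach (fun e => φ (⟨i, hi⟩, e)) C'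
      refine ⟨C'', h3, h4.congr ?_⟩
      intro X
      simp only [hf, hi, dif_pos])
  obtain ⟨C2, h3, h4⟩ := extN_orand m f (fun _ _ => true) ((l + 1) * (w + 1)) C1 h2
    (fun a _ => Avail.const C1 true _)
  obtain ⟨C3, g1, -, g3, g4⟩ := h4.exists_circuit_nots
  have hall := h1.trans h3
  refine ⟨C3, ?_, ?_, ?_⟩
  · rw [g4]
    have := hall.2.2
    rw [nots_empty] at this
    omega
  · rw [g3]
    have h5 := hall.2.1
    have h6 : (Circuit.empty (0 + N)).size = 0 := rfl
    rw [h6] at h5
    refine h5.trans (le_of_eq ?_)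
    ring
  · intro X
    rw [g1]
    simp only [hf, decide_eq_true_eq, and_true]
    constructor
    · rintro ⟨a, ha, h⟩
      rw [dif_pos ha] at h
      exact ⟨⟨a, ha⟩, h⟩
    · rintro ⟨i, h⟩
      exact ⟨i.1, i.2, by rw [dif_pos i.2]; exact h⟩

/-- Key statement: circuits equivalent to a small monotone circuit have many NOT gates or are
deep. -/
theorem key (a w m : ℕ) (ha : 16 ≤ a) (hw : w.Prime) (h1 : 2 ^ a < w) (hm : 1 ≤ m) :
    ∃ (n : ℕ) (M : Circuit n), M.nots = 0 ∧
      M.size ≤ m * (2 * (2 ^ (a - 6) + 1) * w ^ 2 + 2) ∧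
      ∀ C : Circuit n, (∀ x, C.eval x = M.eval x) →
        C.depth + C.nots + 1 < (a - 6) * (a / 4) → m + 2 ≤ 2 ^ (C.nots + 1) := by
  set l := 2 ^ (a - 6) with hl
  set N := Fintype.card (Fin m × EdgeVar l w) with hN
  set φ : Fin m × EdgeVar l w ≃ Fin N := Fintype.equivFin _ with hφ
  obtain ⟨M, hM1, hM2, hM3⟩ := exists_or_circuit m l w N φ
  refine ⟨0 + N, M, hM1, hM2, ?_⟩
  intro C hC hd
  obtain ⟨H, hH1, hH2, hH3⟩ := C.exists_cover
  have hsurj : ∀ j : Fin (0 + N), ∃ v : Fin m × EdgeVar l w, Fin.natAdd 0 (φ v) = j := by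
    intro j
    refine ⟨φ.symm ⟨j.1, by have := j.2; omega⟩, ?_⟩
    rw [Equiv.apply_symm_apply]
    apply Fin.ext
    simp
  choose ψ hψ using hsurj
  have hψ' : ∀ v, ψ (Fin.natAdd 0 (φ v)) = v := by
    intro v
    have := hψ (Fin.natAdd 0 (φ v))
    have h2 : φ (ψ (Fin.natAdd 0 (φ v))) = φ v := by
      have := congrArg Fin.val this
      simp only [Fin.val_natAdd, zero_add] at this
      exact Fin.ext this
    exact φ.injective h2
  have hpull : ∀ (x : Fin m × EdgeVar l w → Bool) (F : MF (Fin (0 + N))),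
      (F.bind (fun j => MF.inp (ψ j))).eval x = F.eval (fun j => x (ψ j)) := by
    intro x F
    rw [MF.eval_bind]
    rfl
  have hCx : ∀ x : Fin m × EdgeVar l w → Bool, (C.eval (fun j => x (ψ j)) = true ↔
      ∃ i : Fin m, reach l w (fun e => x (i, e)) = true) := by
    intro x
    rw [hC, hM3]
    simp only [hψ']
  have hfin := cover_or (reach l w) (reach_false l w) (reach_mono l w) C.depth (C.nots + 1) (by
      intro F hF
      by_contra hcon
      push Not at hcon
      have h2 : (a - 6) * (a / 4) ≤ F.depth := by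
        by_contra hd'
        exact fork_not_solves a w F.depth ha hw h1 (not_le.mp hd')
          (solves_of_mf hw.two_le F hcon)
      omega) (m - 1) Finset.univ (fun _ _ => false)
      (H.map (fun F => F.bind (fun j => MF.inp (ψ j)))) (by
      rw [Finset.card_univ, Fintype.card_fin]; omega) (by
      intro i hi
      exact absurd (Finset.mem_univ i) hi) (by
      rw [List.length_map]; omega) (by
      intro F hF
      obtain ⟨F', hF', rfl⟩ := List.mem_map.mp hF
      have := MF.depth_bind_le (fun j => MF.inp (ψ j)) 0 (fun _ => le_rfl) F'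
      exact (this.trans (by omega)).trans (hH2 F' hF')) (by
      intro x y hxy _ hx hy
      have hx' : C.eval (fun j => x (ψ j)) = false := by
        rw [← Bool.not_eq_true, hCx]
        rintro ⟨i, hi⟩
        rw [hx i] at hi
        exact absurd hi (by simp)
      have hy' : C.eval (fun j => y (ψ j)) = true := (hCx y).2 hy
      obtain ⟨F, hF, h3, h4⟩ := hH3 _ _ (fun j => hxy (ψ j)) hx' hy'
      exact ⟨_, List.mem_map.mpr ⟨F, hF, rfl⟩, by rw [hpull]; exact h3, by rw [hpull]; exact h4⟩)
  rw [List.length_map] at hfin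
  omega

end NegOr

end Pool.Agent.BoolCirc
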