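import Pool.Agent.NegOr.Profile
import Pool.Agent.NegOr.FmRank

/-!
Numerical estimates for the bounds on the number of NOT gates.
-/

namespace Pool.Agent.BoolCirc

namespace NegOr

theorem block_le (a : ℕ) (ha : 3 ≤ a) : 4 * (a ^ 2 * (a ^ 40) ^ 3 + a ^ 40) + 2 ≤ a ^ 126 := by
  have e1 : a ^ 2 * (a ^ 40) ^ 3 = a ^ 122 := by
    rw [← pow_mul, ← pow_add]
  have e2 : a ^ 40 ≤ a ^ 122 := Nat.pow_le_pow_right (by omega) (by norm_num)
  have e3 : 1 ≤ a ^ 122 := Nat.one_le_pow _ _ (by omega)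
  have e4 : a ^ 126 = a ^ 4 * a ^ 122 := by rw [← pow_add]
  have e5 : 10 ≤ a ^ 4 := by
    calc 10 ≤ 3 ^ 4 := by norm_num
      _ ≤ a ^ 4 := Nat.pow_le_pow_left ha 4
  rw [e1, e4]
  obtain ⟨P, hP⟩ : ∃ P, P = a ^ 122 := ⟨_, rfl⟩
  rw [← hP] at e2 e3 ⊢
  calc 4 * (P + a ^ 40) + 2 ≤ 10 * P := by omega
    _ ≤ a ^ 4 * P := Nat.mul_le_mul_right P e5

theorem cube_bound (a : ℕ) (D : ℝ) (hD : 1 ≤ D) (haD : (a : ℝ) ≤ 4 * (D + 1)) :
    (a : ℝ) ≤ (D + 1) ^ 3 := by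
  have h4 : (4 : ℝ) ≤ (D + 1) ^ 2 := by nlinarith
  calc (a : ℝ) ≤ 4 * (D + 1) := haD
    _ ≤ (D + 1) ^ 2 * (D + 1) := mul_le_mul_of_nonneg_right h4 (by linarith)
    _ = (D + 1) ^ 3 := by ring

theorem sq_bound (d : ℕ) (D : ℝ) (hD : 1 ≤ D) (hd : (d : ℝ) ≤ D) :
    (d : ℝ) + 2 ≤ (D + 1) ^ 2 := by nlinarith

theorem block_real (a B : ℕ) (D : ℝ) (hD : 1 ≤ D) (ha : 3 ≤ a) (haD : (a : ℝ) ≤ 4 * (D + 1))
    (hB : B = 4 * (a ^ 2 * (a ^ 40) ^ 3 + a ^ 40) + 2) : (B : ℝ) ≤ (D + 1) ^ 378 := by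
  have h1 : B ≤ a ^ 126 := by
    rw [hB]
    exact block_le a ha
  have h2 : (B : ℝ) ≤ (a : ℝ) ^ 126 := by exact_mod_cast h1
  have h3 : (a : ℝ) ≤ (D + 1) ^ 3 := cube_bound a D hD haD
  calc (B : ℝ) ≤ (a : ℝ) ^ 126 := h2
    _ ≤ ((D + 1) ^ 3) ^ 126 := pow_le_pow_left₀ (Nat.cast_nonneg a) h3 126
    _ = (D + 1) ^ 378 := by rw [← pow_mul]

/-- the parameter `e` with `D ≤ e ≤ D + 1` and `S ≤ 2 ^ e` -/
theorem exists_param (S : ℕ) (hS : 2 ≤ S) (D : ℝ) (hD : Real.logb 2 S ≤ D) :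
    1 ≤ D ∧ ∃ e : ℕ, D ≤ e ∧ (e : ℝ) ≤ D + 1 ∧ S ≤ 2 ^ e := by
  have hS2 : (2 : ℝ) ≤ S := by exact_mod_cast hS
  have hL1 : 1 ≤ Real.logb 2 S := by
    rw [Real.le_logb_iff_rpow_le (by norm_num) (by linarith), Real.rpow_one]
    exact hS2
  have hD1 : 1 ≤ D := hL1.trans hD
  refine ⟨hD1, ⌈D⌉₊, Nat.le_ceil D, (Nat.ceil_lt_add_one (by linarith)).le, ?_⟩
  have h1 : Real.logb 2 S ≤ (⌈D⌉₊ : ℝ) := hD.trans (Nat.le_ceil D)
  rw [Real.logb_le_iff_le_rpow (by norm_num) (by linarith), Real.rpow_natCast] at h1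
  exact_mod_cast h1

theorem final_bound (S B m N h : ℕ) (D : ℝ) (hD : 1 ≤ D) (hB : (B : ℝ) ≤ (D + 1) ^ 378)
    (hS : S < (m + 1) * B) (hm : m < N * (2 ^ h + 1)) :
    (S : ℝ) ≤ 2 ^ h * N * (D + 1) ^ 400 := by
  have hD1' : (1 : ℝ) ≤ D + 1 := by clear hB; linarith
  have hD2' : (2 : ℝ) ≤ D + 1 := by clear hB; linarith
  have h1 : m + 1 ≤ N * (2 * 2 ^ h) := by
    refine le_trans hm (Nat.mul_le_mul_left N ?_)
    have := Nat.one_le_two_pow (n := h)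
    omega
  have h2 : S ≤ N * (2 * 2 ^ h) * B := hS.le.trans (Nat.mul_le_mul_right B h1)
  have h3 : (S : ℝ) ≤ N * (2 * 2 ^ h) * B := by exact_mod_cast h2
  have hD1 : (1 : ℝ) ≤ D + 1 := hD1'
  have hD2 : (2 : ℝ) ≤ D + 1 := hD2'
  obtain ⟨x, hx⟩ : ∃ x, x = D + 1 := ⟨_, rfl⟩
  rw [← hx] at hD1 hD2 hB ⊢
  have hx0 : (0 : ℝ) ≤ x := le_trans zero_le_one hD1
  have h4 : (0 : ℝ) ≤ x ^ 378 := pow_nonneg hx0 378
  have h5 : x ^ 379 ≤ x ^ 400 := pow_le_pow_right₀ hD1 (by norm_num)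
  have hN0 : (0 : ℝ) ≤ 2 ^ h * N := by positivity
  calc (S : ℝ) ≤ N * (2 * 2 ^ h) * B := h3
    _ ≤ N * (2 * 2 ^ h) * x ^ 378 := mul_le_mul_of_nonneg_left hB (by positivity)
    _ = 2 ^ h * N * (2 * x ^ 378) := by
        generalize x ^ 378 = X
        ring
    _ ≤ 2 ^ h * N * (x * x ^ 378) :=
        mul_le_mul_of_nonneg_left (mul_le_mul_of_nonneg_right hD2 h4) hN0
    _ = 2 ^ h * N * x ^ 379 := by
        rw [← pow_succ']
    _ ≤ 2 ^ h * N * x ^ 400 := mul_le_mul_of_nonneg_left h5 hN0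

theorem final_formula (S B m T d : ℕ) (D : ℝ) (hD : 1 ≤ D) (hB : (B : ℝ) ≤ (D + 1) ^ 378)
    (hS : S < (m + 1) * B) (hm : m ≤ T * (d + 1) + 1) (hd : (d : ℝ) ≤ D) :
    (S : ℝ) ≤ (T + 1) * (D + 1) ^ 400 := by
  have hD1' : (1 : ℝ) ≤ D + 1 := by clear hB; linarith
  have h1 : m + 1 ≤ (T + 1) * (d + 2) := by
    have : (T + 1) * (d + 2) = T * (d + 1) + 2 + (T + d) := by ring
    omega
  have h2 : S ≤ (T + 1) * (d + 2) * B := hS.le.trans (Nat.mul_le_mul_right B h1)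
  have h3 : (S : ℝ) ≤ (T + 1) * (d + 2) * B := by exact_mod_cast h2
  have h6 : (d : ℝ) + 2 ≤ (D + 1) ^ 2 := sq_bound d D hD hd
  have hD1 : (1 : ℝ) ≤ D + 1 := hD1'
  obtain ⟨x, hx⟩ : ∃ x, x = D + 1 := ⟨_, rfl⟩
  rw [← hx] at hD1 hB h6 ⊢
  have hx0 : (0 : ℝ) ≤ x := le_trans zero_le_one hD1
  have h4 : (0 : ℝ) ≤ x ^ 378 := pow_nonneg hx0 378
  have h5 : x ^ 380 ≤ x ^ 400 := pow_le_pow_right₀ hD1 (by norm_num)
  have hT : (0 : ℝ) ≤ (T : ℝ) + 1 := by positivity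
  calc (S : ℝ) ≤ (T + 1) * (d + 2) * B := h3
    _ ≤ (T + 1) * (d + 2) * x ^ 378 := mul_le_mul_of_nonneg_left hB (by positivity)
    _ ≤ (T + 1) * x ^ 2 * x ^ 378 :=
        mul_le_mul_of_nonneg_right (mul_le_mul_of_nonneg_left h6 hT) h4
    _ = (T + 1) * x ^ 380 := by
        rw [mul_assoc, ← pow_add]
    _ ≤ (T + 1) * x ^ 400 := mul_le_mul_of_nonneg_left h5 hT

theorem one_le_notLevel {n : ℕ} (C : Circuit n) (j : Fin C.size) (h : (C.gate j).isNot = true) :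
    1 ≤ C.notLevel j := by
  rw [C.notLevel_eq]
  cases hg : C.gate j with
  | and a b => rw [hg] at h; simp [Gate.isNot] at h
  | or a b => rw [hg] at h; simp [Gate.isNot] at h
  | not a => simp [Gate.notLevel]

theorem deepNots_zero_of_level {n : ℕ} (C : Circuit n) (h : ℕ) (hr : ∀ j, C.notLevel j ≤ 0) :
    C.deepNots h = 0 := by
  classical
  unfold Circuit.deepNots
  rw [Finset.card_eq_zero, Finset.filter_eq_empty_iff]
  intro j _ hj
  have h1 := one_le_notLevel C j hj.1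
  have h2 := hr j
  omega

theorem le_pow_of_le (T r : ℕ) (hr : 1 ≤ r) : (T : ℝ) ≤ (1 + (T : ℝ) / r) ^ r := by
  have hr' : (0 : ℝ) < r := by exact_mod_cast hr
  have h1 : (-2 : ℝ) ≤ (T : ℝ) / r := by
    have : (0 : ℝ) ≤ (T : ℝ) / r := by positivity
    linarith
  have h2 := one_add_mul_le_pow h1 r
  have h3 : (r : ℝ) * ((T : ℝ) / r) = T := by field_simp
  linarith

/-- The main estimate for circuits. -/
theorem circuits (S : ℕ) (hS : 2 ≤ S) (D : ℝ) (hD : Real.logb 2 S ≤ D) :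
    ∃ (n : ℕ) (M : Circuit n), M.size ≤ S ∧ M.nots = 0 ∧
      ∀ C : Circuit n, (∀ x, C.eval x = M.eval x) → (C.depth : ℝ) ≤ D → ∀ h : ℕ,
        (S : ℝ) ≤ 2 ^ (C.deepNots h + h) * (D + 1) ^ 400 ∧
        ∀ r : ℕ, (∀ j, C.notLevel j ≤ r) →
          (S : ℝ) ≤ 2 ^ h * (1 + (C.deepNots h : ℝ) / r) ^ r * (D + 1) ^ 400 := by
  obtain ⟨hD1, e, he1, he2, hSe⟩ := exists_param S hS D hD
  obtain ⟨a, ha⟩ : ∃ a, a = 2 * e + 3 := ⟨_, rfl⟩
  obtain ⟨B, hB⟩ : ∃ B, B = 4 * (a ^ 2 * (a ^ 40) ^ 3 + a ^ 40) + 2 := ⟨_, rfl⟩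
  have haD : (a : ℝ) ≤ 4 * (D + 1) := by
    rw [ha]
    push_cast
    linarith
  have hBr := block_real a B D hD1 (by omega) haD hB
  have hB0 : 0 < B := by omega
  obtain ⟨K, hKdef, hK⟩ : ∃ K, K = (D + 1) ^ 400 ∧ (1 : ℝ) ≤ K :=
    ⟨_, rfl, one_le_pow₀ (by clear hBr; linarith)⟩
  have hK0 : (0 : ℝ) ≤ K := le_trans zero_le_one hK
  rw [← hKdef]
  obtain ⟨n, M, hM1, hM2, hM3⟩ := key_profile (2 * e + 2) (S / B) (by omega)
  have hq3 : 2 * e + 2 + 1 = a := by omega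
  rw [hq3, ← hB] at hM2
  refine ⟨n, M, hM2.trans (Nat.div_mul_le_self S B), hM1, fun C hC hdep h => ?_⟩
  have hSB : S < (S / B + 1) * B := by
    have := Nat.lt_div_mul_add (a := S) hB0
    rw [add_mul, one_mul]
    exact this
  have hdep' : C.depth ≤ e := by
    have : (C.depth : ℝ) ≤ (e : ℝ) := hdep.trans he1
    exact_mod_cast this
  have hone : ∀ r : ℕ, (1 : ℝ) ≤ (1 + (C.deepNots h : ℝ) / r) ^ r := fun r =>
    one_le_pow₀ (by
      have : (0 : ℝ) ≤ (C.deepNots h : ℝ) / r := by positivity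
      linarith)
  have h2h : (1 : ℝ) ≤ 2 ^ h := one_le_pow₀ (by norm_num)
  have main : ∀ r : ℕ, (∀ j, C.notLevel j ≤ r) → C.deepNots h < S → 2 ^ h < S →
      ∃ t : ℕ → ℕ, ∑ s ∈ Finset.range r, t s ≤ C.deepNots h ∧
        (S : ℝ) ≤ 2 ^ h * ((∏ s ∈ Finset.range r, (t s + 1) : ℕ) : ℝ) * K := by
    intro r hr hT hh
    obtain ⟨t, ht1, ht2⟩ := hM3 C hC h (e + 1) r hr (by rw [pow_succ]; omega) (by omega)
    exact ⟨t, ht1, by rw [hKdef]; exact final_bound S B _ _ h D hD1 hBr hSB ht2⟩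
  by_cases hh : 2 ^ h < S
  · by_cases hT : C.deepNots h < S
    · refine ⟨?_, fun r hr => ?_⟩
      · obtain ⟨t, ht1, ht2⟩ := main C.size
          (fun j => (C.notLevel_le j.1 j.2).trans j.2) hT hh
        have h1 := prod_le_two_pow C.size _ t ht1
        have h2 : ((∏ s ∈ Finset.range C.size, (t s + 1) : ℕ) : ℝ) ≤ 2 ^ C.deepNots h := by
          exact_mod_cast h1
        refine ht2.trans ?_
        rw [pow_add, mul_comm ((2 : ℝ) ^ C.deepNots h)]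
        exact mul_le_mul_of_nonneg_right (mul_le_mul_of_nonneg_left h2 (by positivity))
          (by positivity)
      · obtain ⟨t, ht1, ht2⟩ := main r hr hT hh
        refine ht2.trans ?_
        exact mul_le_mul_of_nonneg_right (mul_le_mul_of_nonneg_left (amgm r _ t ht1)
          (by positivity)) (by positivity)
    · have hT' : S ≤ C.deepNots h := not_lt.mp hT
      have hT2 : (S : ℝ) ≤ C.deepNots h := by exact_mod_cast hT'
      refine ⟨?_, fun r hr => ?_⟩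
      · have h1 : C.deepNots h ≤ 2 ^ (C.deepNots h + h) := by
          have e1 : C.deepNots h < 2 ^ C.deepNots h := Nat.lt_two_pow_self
          have e2 : 2 ^ C.deepNots h ≤ 2 ^ (C.deepNots h + h) :=
            Nat.pow_le_pow_right (by norm_num) (by omega)
          omega
        have h2 : (C.deepNots h : ℝ) ≤ 2 ^ (C.deepNots h + h) := by exact_mod_cast h1
        calc (S : ℝ) ≤ 2 ^ (C.deepNots h + h) * 1 := by rw [mul_one]; exact hT2.trans h2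
          _ ≤ 2 ^ (C.deepNots h + h) * K :=
            mul_le_mul_of_nonneg_left hK (by positivity)
      · rcases Nat.eq_zero_or_pos r with h0 | h0
        · subst h0
          have := deepNots_zero_of_level C h hr
          omega
        · have h1 := le_pow_of_le (C.deepNots h) r h0
          calc (S : ℝ) ≤ 1 * (1 + (C.deepNots h : ℝ) / r) ^ r * 1 := by
                rw [one_mul, mul_one]; exact hT2.trans h1
            _ ≤ 2 ^ h * (1 + (C.deepNots h : ℝ) / r) ^ r * K := by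
                have h3 := hone r
                gcongr
  · have hh' : S ≤ 2 ^ h := not_lt.mp hh
    have hh2 : (S : ℝ) ≤ 2 ^ h := by exact_mod_cast hh'
    refine ⟨?_, fun r hr => ?_⟩
    · have h1 : (2 : ℝ) ^ h ≤ 2 ^ (C.deepNots h + h) :=
        pow_le_pow_right₀ (by norm_num) (by omega)
      calc (S : ℝ) ≤ 2 ^ (C.deepNots h + h) * 1 := by rw [mul_one]; exact hh2.trans h1
        _ ≤ 2 ^ (C.deepNots h + h) * K :=
          mul_le_mul_of_nonneg_left hK (by positivity)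
    · calc (S : ℝ) ≤ 2 ^ h * 1 * 1 := by rw [mul_one, mul_one]; exact hh2
        _ ≤ 2 ^ h * (1 + (C.deepNots h : ℝ) / r) ^ r * K := by
            have h3 := hone r
            gcongr

/-- The main estimate for formulas. -/
theorem formulas (S : ℕ) (hS : 2 ≤ S) (D : ℝ) (hD : Real.logb 2 S ≤ D) :
    ∃ (n : ℕ) (M : Circuit n), M.size ≤ S ∧ M.nots = 0 ∧
      ∀ F : Fm n, (∀ x, F.eval x = M.eval x) → (F.depth : ℝ) ≤ D →
        (S : ℝ) ≤ (F.nots + 1) * (D + 1) ^ 400 := by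
  obtain ⟨hD1, e, he1, he2, hSe⟩ := exists_param S hS D hD
  obtain ⟨a, ha⟩ : ∃ a, a = 2 * e + 3 := ⟨_, rfl⟩
  obtain ⟨B, hB⟩ : ∃ B, B = 4 * (a ^ 2 * (a ^ 40) ^ 3 + a ^ 40) + 2 := ⟨_, rfl⟩
  have haD : (a : ℝ) ≤ 4 * (D + 1) := by
    rw [ha]
    push_cast
    linarith
  have hBr := block_real a B D hD1 (by omega) haD hB
  have hB0 : 0 < B := by omega
  obtain ⟨K, hKdef, hK⟩ : ∃ K, K = (D + 1) ^ 400 ∧ (1 : ℝ) ≤ K :=
    ⟨_, rfl, one_le_pow₀ (by clear hBr; linarith)⟩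
  rw [← hKdef]
  obtain ⟨n, M, hM1, hM2, hM3⟩ := key_formula (2 * e + 2) (S / B) (by omega)
  have hq3 : 2 * e + 2 + 1 = a := by omega
  rw [hq3, ← hB] at hM2
  refine ⟨n, M, hM2.trans (Nat.div_mul_le_self S B), hM1, fun F hF hdep => ?_⟩
  have hSB : S < (S / B + 1) * B := by
    have := Nat.lt_div_mul_add (a := S) hB0
    rw [add_mul, one_mul]
    exact this
  have hdep' : F.depth ≤ e := by
    have : (F.depth : ℝ) ≤ (e : ℝ) := hdep.trans he1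
    exact_mod_cast this
  by_cases hT : F.nots + 1 ≤ S
  · have h1 := hM3 F hF e (by omega) (by omega)
    rw [hKdef]
    exact final_formula S B _ _ _ D hD1 hBr hSB h1 hdep
  · have hT' : S ≤ F.nots + 1 := by omega
    have hT2 : (S : ℝ) ≤ F.nots + 1 := by exact_mod_cast hT'
    calc (S : ℝ) ≤ (F.nots + 1) * 1 := by rw [mul_one]; exact hT2
      _ ≤ (F.nots + 1) * K := mul_le_mul_of_nonneg_left hK (by positivity)

end NegOr

end Pool.Agent.BoolCirc
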