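import Pool.Agent.NegOr.Level
import Pool.Agent.NegOr.Lift

/-!
Circuits equivalent to a small monotone circuit: the number of NOT gates against their nesting.
-/

namespace Pool.Agent.BoolCirc

namespace NegOr

theorem amgm (r T : ℕ) (t : ℕ → ℕ) (h : ∑ s ∈ Finset.range r, t s ≤ T) :
    (((∏ s ∈ Finset.range r, (t s + 1) : ℕ)) : ℝ) ≤ (1 + (T : ℝ) / r) ^ r := by
  rcases Nat.eq_zero_or_pos r with h0 | h0
  · subst h0
    simp
  · have hr : (0 : ℝ) < r := by exact_mod_cast h0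
    have h1 := Real.geom_mean_le_arith_mean_weighted (Finset.range r)
      (fun _ => 1 / (r : ℝ)) (fun s => ((t s : ℝ) + 1)) (fun _ _ => by positivity)
      (by
        rw [Finset.sum_const, Finset.card_range, nsmul_eq_mul]
        field_simp) (fun _ _ => by positivity)
    rw [Real.finset_prod_rpow _ _ (fun s _ => by positivity), ← Finset.mul_sum,
      Finset.sum_add_distrib, Finset.sum_const, Finset.card_range, nsmul_eq_mul, mul_one] at h1
    have h2 : ((∑ s ∈ Finset.range r, t s : ℕ) : ℝ) ≤ T := by exact_mod_cast h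
    push_cast at h2
    have h3 : 1 / (r : ℝ) * (∑ s ∈ Finset.range r, (t s : ℝ) + r) ≤ 1 + (T : ℝ) / r := by
      have : 1 / (r : ℝ) * (∑ s ∈ Finset.range r, (t s : ℝ) + r) =
          1 + (∑ s ∈ Finset.range r, (t s : ℝ)) / r := by
        field_simp
        ring
      rw [this]
      have := div_le_div_of_nonneg_right h2 hr.le
      linarith
    have h4 : (0 : ℝ) ≤ ∏ s ∈ Finset.range r, ((t s : ℝ) + 1) :=
      Finset.prod_nonneg (fun _ _ => by positivity)
    push_cast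
    calc ∏ s ∈ Finset.range r, ((t s : ℝ) + 1)
        = ((∏ s ∈ Finset.range r, ((t s : ℝ) + 1)) ^ (1 / (r : ℝ))) ^ r := by
          rw [← Real.rpow_natCast, ← Real.rpow_mul h4, one_div, inv_mul_cancel₀ hr.ne',
            Real.rpow_one]
      _ ≤ (1 + (T : ℝ) / r) ^ r :=
          pow_le_pow_left₀ (Real.rpow_nonneg h4 _) (h1.trans h3) r

theorem prod_le_two_pow (r T : ℕ) (t : ℕ → ℕ) (h : ∑ s ∈ Finset.range r, t s ≤ T) :
    ∏ s ∈ Finset.range r, (t s + 1) ≤ 2 ^ T := by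
  calc ∏ s ∈ Finset.range r, (t s + 1) ≤ ∏ s ∈ Finset.range r, 2 ^ t s :=
        Finset.prod_le_prod (fun _ _ => Nat.zero_le _) (fun s _ => Nat.lt_two_pow_self)
    _ = 2 ^ (∑ s ∈ Finset.range r, t s) := Finset.prod_pow_eq_pow_sum _ _ _
    _ ≤ 2 ^ T := Nat.pow_le_pow_right (by norm_num) h

/-- Key statement: circuits equivalent to a small monotone circuit are deep or have many NOT gates
far from the output, more of them if they are not nested. -/
theorem key_profile (H m : ℕ) (hH : 1 ≤ H) :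
    ∃ (n : ℕ) (M : Circuit n), M.nots = 0 ∧
      M.size ≤ m * (4 * ((H + 1) ^ 2 * ((H + 1) ^ 40) ^ 3 + (H + 1) ^ 40) + 2) ∧
      ∀ C : Circuit n, (∀ x, C.eval x = M.eval x) → ∀ h p r : ℕ, (∀ j, C.notLevel j ≤ r) →
        C.deepNots h + 2 ^ h ≤ 2 ^ p → C.depth + p < H →
        ∃ t : ℕ → ℕ, ∑ s ∈ Finset.range r, t s ≤ C.deepNots h ∧
          m < (∏ s ∈ Finset.range r, (t s + 1)) * (2 ^ h + 1) := by
  obtain ⟨φ⟩ : Nonempty (Fin m × RVar H ((H + 1) ^ 40) ≃
      Fin (Fintype.card (Fin m × RVar H ((H + 1) ^ 40)))) := ⟨Fintype.equivFin _⟩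
  obtain ⟨M, hM1, hM2, hM3⟩ := exists_or_gad_circuit m H ((H + 1) ^ 40) _ φ
  refine ⟨_, M, hM1, hM2, ?_⟩
  intro C hC h p r hr hp hd
  have hCx : ∀ x : Fin m × RVar H ((H + 1) ^ 40) → Bool,
      (C.eval (fun j => x (φ.symm j)) = true ↔
        ∃ i : Fin m, gad H ((H + 1) ^ 40) (fun e => x (i, e)) = true) := by
    intro x
    rw [hC, hM3]
    simp only [Equiv.symm_apply_apply]
  obtain ⟨Φ, t, ht, hΦ, hsep⟩ := C.exists_rank_profile h r hr
  refine ⟨t, ht, or_lift (gad H ((H + 1) ^ 40)) (gad_false _ _) (hΦ.comp φ.symm) hp ?_ ?_⟩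
  · intro x y hxy hx hy heq
    have h1 := hsep _ _ (fun j => hxy (φ.symm j)) heq
    have h2 := (hCx y).2 hy
    rw [← h1, hCx x] at h2
    obtain ⟨i, hi⟩ := h2
    rw [hx i] at hi
    exact absurd hi (by simp)
  · intro F hF
    by_contra hcon
    push Not at hcon
    have := gad_lower H hH F hcon
    omega

end NegOr

end Pool.Agent.BoolCirc
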