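import Pool.Agent.NegOr.QueryDefs
import Pool.Agent.NegOr.Num

/-!
Lower bound for the adaptive evaluation of monotone formulas.
-/

namespace Pool.Agent.BoolCirc

namespace NegOr

variable {n : ℕ}

/-- the rank function of an adaptive evaluation, given the rank function `Φ` and the history `c` of
the earlier rounds -/
theorem exists_rank_queries (d : ℕ) (f : (Fin n → Bool) → Bool) : ∀ (ws : List ℕ) (κ : Type)
    (c : (Fin n → Bool) → κ) (Φ : (Fin n → Bool) → ℕ) (N l : ℕ), Rk N l d Φ →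
    (∀ x y, (∀ i, x i = true → y i = true) → Φ y = Φ x → c y = c x) →
    (∀ k, Queries d f ws {x | c x = k}) →
    ∃ Φ' : (Fin n → Bool) → ℕ, Rk (N * (ws.map (fun w => w + 1)).prod) (l + ws.sum) d Φ' ∧
      ∀ x y, (∀ i, x i = true → y i = true) → Φ' y = Φ' x → f y = f x := by
  intro ws
  induction ws with
  | nil =>
    intro κ c Φ N l hΦ hc hq
    refine ⟨Φ, by simpa using hΦ, fun x y hxy he => ?_⟩
    exact hq (c x) y (hc x y hxy he) x rfl
  | cons w ws ih =>
    intro κ c Φ N l hΦ hc hq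
    choose F hF1 hF2 using hq
    obtain ⟨u, hu⟩ : ∃ u : Fin w → (Fin n → Bool) → Bool,
        u = fun i x => (F (c x) i).eval x := ⟨_, rfl⟩
    have hgiv : ∀ i, Giv Φ (u i) d := by
      intro i x₀
      refine ⟨F (c x₀) i, hF1 _ _, fun y hy he => ?_⟩
      rw [hu]
      show _ = (F (c y) i).eval y
      rw [hc x₀ y hy he]
    have hus : ∀ v ∈ List.ofFn u, Giv Φ v d := by
      intro v hv
      obtain ⟨i, rfl⟩ := (List.mem_ofFn' u v).mp hv
      exact hgiv i
    obtain ⟨Φ', h1, h2⟩ := ih (κ × (Fin w → Bool)) (fun x => (c x, fun i => u i x))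
      (stepRank Φ (List.ofFn u)) (N * (w + 1)) (l + w) (by
        have := hΦ.step _ hus
        rwa [List.length_ofFn] at this) (by
        intro x y hxy he
        obtain ⟨h3, h4⟩ := hΦ.step_eq hus hxy he
        have h5 : (fun i => u i y) = fun i => u i x := by
          funext i
          exact h4 (u i) ((List.mem_ofFn' u _).mpr ⟨i, rfl⟩)
        show (c y, fun i => u i y) = (c x, fun i => u i x)
        rw [hc x y hxy h3, h5]) (by
        rintro ⟨k, v⟩
        have h3 := hF2 k v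
        have heq : {x | (c x, fun i => u i x) = (k, v)} =
            {x | c x = k} ∩ {x | ∀ i, (F k i).eval x = v i} := by
          ext x
          simp only [Set.mem_setOf_eq, Set.mem_inter_iff, Prod.mk.injEq]
          constructor
          · rintro ⟨h4, h5⟩
            refine ⟨h4, fun i => ?_⟩
            rw [← h5, hu]
            show (F k i).eval x = (F (c x) i).eval x
            rw [h4]
          · rintro ⟨h4, h5⟩
            refine ⟨h4, ?_⟩
            funext i
            rw [← h5 i, hu]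
            show (F (c x) i).eval x = (F k i).eval x
            rw [h4]
        rw [heq]
        exact h3)
    refine ⟨Φ', ?_, h2⟩
    rw [List.map_cons, List.prod_cons, List.sum_cons, ← mul_assoc, ← add_assoc]
    exact h1

theorem sum_lt_prod : ∀ ws : List ℕ, ws.sum + 1 ≤ (ws.map (fun w => w + 1)).prod := by
  intro ws
  induction ws with
  | nil => simp
  | cons w ws ih =>
    rw [List.map_cons, List.prod_cons, List.sum_cons]
    calc w + ws.sum + 1 ≤ (w + 1) * (ws.sum + 1) := by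
          have : (w + 1) * (ws.sum + 1) = w * ws.sum + w + ws.sum + 1 := by ring
          omega
      _ ≤ (w + 1) * (ws.map (fun w => w + 1)).prod := Nat.mul_le_mul_left _ ih

/-- the circuit of the lower bounds, with everything that is proved about it -/
theorem key_all (H m : ℕ) (hH : 1 ≤ H) :
    ∃ (n : ℕ) (M : Circuit n), M.nots = 0 ∧
      M.size ≤ m * (4 * ((H + 1) ^ 2 * ((H + 1) ^ 40) ^ 3 + (H + 1) ^ 40) + 2) ∧
      (∀ (d p : ℕ) (ws : List ℕ), Queries d M.eval ws Set.univ → ws.sum ≤ 2 ^ p → d + p < H →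
        m < (ws.map (fun w => w + 1)).prod) ∧
      ∀ C : Circuit n, (∀ x, C.eval x = M.eval x) → ∀ h p r : ℕ, (∀ j, C.notLevel j ≤ r) →
        C.deepNots h + 2 ^ h ≤ 2 ^ p → C.depth + p < H →
        ∃ t : ℕ → ℕ, ∑ s ∈ Finset.range r, t s ≤ C.deepNots h ∧
          m < (∏ s ∈ Finset.range r, (t s + 1)) * (2 ^ h + 1) := by
  obtain ⟨φ⟩ : Nonempty (Fin m × RVar H ((H + 1) ^ 40) ≃
      Fin (Fintype.card (Fin m × RVar H ((H + 1) ^ 40)))) := ⟨Fintype.equivFin _⟩
  obtain ⟨M, hM1, hM2, hM3⟩ := exists_or_gad_circuit m H ((H + 1) ^ 40) _ φ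
  have hMx : ∀ x : Fin m × RVar H ((H + 1) ^ 40) → Bool,
      (M.eval (fun j => x (φ.symm j)) = true ↔
        ∃ i : Fin m, gad H ((H + 1) ^ 40) (fun e => x (i, e)) = true) := by
    intro x
    rw [hM3]
    simp only [Equiv.symm_apply_apply]
  have hhard : ∀ d : ℕ, d < H → ∀ F : MF (RVar H ((H + 1) ^ 40)), F.depth ≤ d →
      ∃ x, F.eval x ≠ gad H ((H + 1) ^ 40) x := by
    intro d hd F hF
    by_contra hcon
    push Not at hcon
    have := gad_lower H hH F hcon
    omega
  refine ⟨_, M, hM1, hM2, ?_, ?_⟩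
  · intro d p ws hq hp hd
    have h₀ : Rk 1 0 d (fun _ : Fin (Fintype.card (Fin m × RVar H ((H + 1) ^ 40))) → Bool => 0) :=
      ⟨fun _ => by simp, fun _ _ _ => le_rfl, fun x₀ => ⟨[], Nat.zero_le _, by simp, by simp⟩⟩
    obtain ⟨Φ, hΦ, hsep⟩ := exists_rank_queries d M.eval ws Unit (fun _ => ()) _ 1 0 h₀
      (fun _ _ _ _ => rfl) (fun k => by
        have : {x : Fin (Fintype.card (Fin m × RVar H ((H + 1) ^ 40))) → Bool | () = k} =
            Set.univ := by
          ext x
          simp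
        rw [this]
        exact hq)
    rw [one_mul, zero_add] at hΦ
    refine or_lift (gad H ((H + 1) ^ 40)) (gad_false _ _) (hΦ.comp φ.symm) hp ?_
      (hhard (d + p) hd)
    intro x y hxy hx hy heq
    have h1 := hsep _ _ (fun j => hxy (φ.symm j)) heq.symm
    have h2 := (hMx y).2 hy
    rw [h1, hMx x] at h2
    obtain ⟨i, hi⟩ := h2
    rw [hx i] at hi
    exact absurd hi (by simp)
  · intro C hC h p r hr hp hd
    obtain ⟨Φ, t, ht, hΦ, hsep⟩ := C.exists_rank_profile h r hr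
    refine ⟨t, ht, or_lift (gad H ((H + 1) ^ 40)) (gad_false _ _) (hΦ.comp φ.symm) hp ?_
      (hhard _ hd)⟩
    intro x y hxy hx hy heq
    have h1 := hsep _ _ (fun j => hxy (φ.symm j)) heq
    rw [hC, hC] at h1
    have h2 := (hMx y).2 hy
    rw [← h1, hMx x] at h2
    obtain ⟨i, hi⟩ := h2
    rw [hx i] at hi
    exact absurd hi (by simp)

theorem final_queries (S B m P : ℕ) (D : ℝ) (hD : 1 ≤ D) (hB : (B : ℝ) ≤ (D + 1) ^ 378)
    (hS : S < (m + 1) * B) (hm : m < P) : (S : ℝ) ≤ P * (D + 1) ^ 400 := by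
  have hD1' : (1 : ℝ) ≤ D + 1 := by clear hB; linarith
  have h2 : S ≤ P * B := hS.le.trans (Nat.mul_le_mul_right B hm)
  have h3 : (S : ℝ) ≤ P * B := by exact_mod_cast h2
  have h5 : (D + 1) ^ 378 ≤ (D + 1) ^ 400 := pow_le_pow_right₀ hD1' (by norm_num)
  exact h3.trans (mul_le_mul_of_nonneg_left (hB.trans h5) (Nat.cast_nonneg P))

/-- The main estimate. -/
theorem all_bounds (S : ℕ) (hS : 2 ≤ S) (D : ℝ) (hD : Real.logb 2 S ≤ D) :
    ∃ (n : ℕ) (M : Circuit n), M.size ≤ S ∧ M.nots = 0 ∧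
      (∀ (d : ℕ) (ws : List ℕ), (d : ℝ) ≤ D → Queries d M.eval ws Set.univ →
        (S : ℝ) ≤ ((ws.map (fun w => w + 1)).prod : ℕ) * (D + 1) ^ 400) ∧
      ∀ C : Circuit n, (∀ x, C.eval x = M.eval x) → (C.depth : ℝ) ≤ D → ∀ h : ℕ,
        (S : ℝ) ≤ 2 ^ (C.deepNots h + h) * (D + 1) ^ 400 ∧
        ∀ r : ℕ, (∀ j, C.notLevel j ≤ r) →
          (S : ℝ) ≤ 2 ^ h * (1 + (C.deepNots h : ℝ) / r) ^ r * (D + 1) ^ 400 := by
  obtain ⟨hD1, e, he1, he2, hSe⟩ := exists_param S hS D hD
  obtain ⟨a, ha⟩ : ∃ a, a = 2 * e + 3 := ⟨_, rfl⟩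
  obtain ⟨B, hB⟩ : ∃ B, B = 4 * (a ^ 2 * (a ^ 40) ^ 3 + a ^ 40) + 2 := ⟨_, rfl⟩
  have haD : (a : ℝ) ≤ 4 * (D + 1) := by
    rw [ha]
    push_cast
    linarith
  have hBr := block_real a B D hD1 (by omega) haD hB
  have hB0 : 0 < B := by omega
  obtain ⟨K, hKdef, hK⟩ : ∃ K, K = (D + 1) ^ 400 ∧ (1 : ℝ) ≤ K :=
    ⟨_, rfl, one_le_pow₀ (by clear hBr; linarith)⟩
  have hK0 : (0 : ℝ) ≤ K := le_trans zero_le_one hK
  rw [← hKdef]
  obtain ⟨n, M, hM1, hM2, hM4, hM3⟩ := key_all (2 * e + 2) (S / B) (by omega)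
  have hq3 : 2 * e + 2 + 1 = a := by omega
  rw [hq3, ← hB] at hM2
  have hSB : S < (S / B + 1) * B := by
    have := Nat.lt_div_mul_add (a := S) hB0
    rw [add_mul, one_mul]
    exact this
  refine ⟨n, M, hM2.trans (Nat.div_mul_le_self S B), hM1, ?_, fun C hC hdep h => ?_⟩
  · intro d ws hd hq
    have hd' : d ≤ e := by
      have : (d : ℝ) ≤ (e : ℝ) := hd.trans he1
      exact_mod_cast this
    by_cases hP : (ws.map (fun w => w + 1)).prod ≤ S
    · have h1 := sum_lt_prod ws
      have h2 := hM4 d e ws hq (by omega) (by omega)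
      rw [hKdef]
      exact final_queries S B _ _ D hD1 hBr hSB h2
    · have h1 : S ≤ (ws.map (fun w => w + 1)).prod := by omega
      have h2 : (S : ℝ) ≤ ((ws.map (fun w => w + 1)).prod : ℕ) := by exact_mod_cast h1
      calc (S : ℝ) ≤ ((ws.map (fun w => w + 1)).prod : ℕ) * 1 := by rw [mul_one]; exact h2
        _ ≤ ((ws.map (fun w => w + 1)).prod : ℕ) * K :=
          mul_le_mul_of_nonneg_left hK (Nat.cast_nonneg _)
  have hdep' : C.depth ≤ e := by
    have : (C.depth : ℝ) ≤ (e : ℝ) := hdep.trans he1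
    exact_mod_cast this
  have hone : ∀ r : ℕ, (1 : ℝ) ≤ (1 + (C.deepNots h : ℝ) / r) ^ r := fun r =>
    one_le_pow₀ (by
      have : (0 : ℝ) ≤ (C.deepNots h : ℝ) / r := by positivity
      linarith)
  have h2h : (1 : ℝ) ≤ 2 ^ h := one_le_pow₀ (by norm_num)
  have main : ∀ r : ℕ, (∀ j, C.notLevel j ≤ r) → C.deepNots h < S → 2 ^ h < S →
      ∃ t : ℕ → ℕ, ∑ s ∈ Finset.range r, t s ≤ C.deepNots h ∧
        (S : ℝ) ≤ 2 ^ h * ((∏ s ∈ Finset.range r, (t s + 1) : ℕ) : ℝ) * K := by
    intro r hr hT hh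
    obtain ⟨t, ht1, ht2⟩ := hM3 C hC h (e + 1) r hr (by rw [pow_succ]; omega) (by omega)
    exact ⟨t, ht1, by rw [hKdef]; exact final_bound S B _ _ h D hD1 hBr hSB ht2⟩
  by_cases hh : 2 ^ h < S
  · by_cases hT : C.deepNots h < S
    · refine ⟨?_, fun r hr => ?_⟩
      · obtain ⟨t, ht1, ht2⟩ := main C.size
          (fun j => (C.notLevel_le j.1 j.2).trans j.2) hT hh
        have h1 := prod_le_two_pow C.size _ t ht1
        have h2 : ((∏ s ∈ Finset.range C.size, (t s + 1) : ℕ) : ℝ) ≤ 2 ^ C.deepNots h := by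
          exact_mod_cast h1
        refine ht2.trans ?_
        rw [pow_add, mul_comm ((2 : ℝ) ^ C.deepNots h)]
        exact mul_le_mul_of_nonneg_right (mul_le_mul_of_nonneg_left h2 (by positivity))
          hK0
      · obtain ⟨t, ht1, ht2⟩ := main r hr hT hh
        refine ht2.trans ?_
        exact mul_le_mul_of_nonneg_right (mul_le_mul_of_nonneg_left (amgm r _ t ht1)
          (by positivity)) hK0
    · have hT' : S ≤ C.deepNots h := not_lt.mp hT
      have hT2 : (S : ℝ) ≤ C.deepNots h := by exact_mod_cast hT'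
      refine ⟨?_, fun r hr => ?_⟩
      · have h1 : C.deepNots h ≤ 2 ^ (C.deepNots h + h) := by
          have e1 : C.deepNots h < 2 ^ C.deepNots h := Nat.lt_two_pow_self
          have e2 : 2 ^ C.deepNots h ≤ 2 ^ (C.deepNots h + h) :=
            Nat.pow_le_pow_right (by norm_num) (by omega)
          omega
        have h2 : (C.deepNots h : ℝ) ≤ 2 ^ (C.deepNots h + h) := by exact_mod_cast h1
        calc (S : ℝ) ≤ 2 ^ (C.deepNots h + h) * 1 := by rw [mul_one]; exact hT2.trans h2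
          _ ≤ 2 ^ (C.deepNots h + h) * K :=
            mul_le_mul_of_nonneg_left hK (by positivity)
      · rcases Nat.eq_zero_or_pos r with h0 | h0
        · subst h0
          have := deepNots_zero_of_level C h hr
          omega
        · have h1 := le_pow_of_le (C.deepNots h) r h0
          calc (S : ℝ) ≤ 1 * (1 + (C.deepNots h : ℝ) / r) ^ r * 1 := by
                rw [one_mul, mul_one]; exact hT2.trans h1
            _ ≤ 2 ^ h * (1 + (C.deepNots h : ℝ) / r) ^ r * K := by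
                have h3 := hone r
                gcongr
  · have hh' : S ≤ 2 ^ h := not_lt.mp hh
    have hh2 : (S : ℝ) ≤ 2 ^ h := by exact_mod_cast hh'
    refine ⟨?_, fun r hr => ?_⟩
    · have h1 : (2 : ℝ) ^ h ≤ 2 ^ (C.deepNots h + h) :=
        pow_le_pow_right₀ (by norm_num) (by omega)
      calc (S : ℝ) ≤ 2 ^ (C.deepNots h + h) * 1 := by rw [mul_one]; exact hh2.trans h1
        _ ≤ 2 ^ (C.deepNots h + h) * K :=
          mul_le_mul_of_nonneg_left hK (by positivity)
    · calc (S : ℝ) ≤ 2 ^ h * 1 * 1 := by rw [mul_one, mul_one]; exact hh2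
        _ ≤ 2 ^ h * (1 + (C.deepNots h : ℝ) / r) ^ r * K := by
            have h3 := hone r
            gcongr

end NegOr

end Pool.Agent.BoolCirc
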