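import Pool.Agent.NegThr.Defs

/-!
Adaptive evaluation of monotone formulas.
-/

namespace Pool.Agent.BoolCirc

/-- On the set `A` of inputs, the function `f` is determined by the answers to monotone queries of
depth at most `d`: there is one round of queries for every entry `w` of the list `ws`, in which `w`
monotone formulas of depth at most `d` are evaluated at the input; the formulas of a round may
depend on the answers of all earlier rounds. -/
def Queries {n : ℕ} (d : ℕ) (f : (Fin n → Bool) → Bool) : List ℕ → Set (Fin n → Bool) → Prop
  | [], A => ∀ x ∈ A, ∀ y ∈ A, f x = f y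
  | w :: ws, A => ∃ F : Fin w → MF (Fin n), (∀ i, (F i).depth ≤ d) ∧
      ∀ v : Fin w → Bool, Queries d f ws (A ∩ {x | ∀ i, (F i).eval x = v i})

end Pool.Agent.BoolCirc
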