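import Pool.Agent.NegOr.Generic
import Pool.Agent.NegThr.PL10

/-!
Sharp numerical form of the bounds.
-/

namespace Pool.Agent.BoolCirc

namespace NegOr

/-- the number of gates of a block -/
theorem block_sharp (K : ℕ) : ∃ A : ℝ, 1 ≤ A ∧ ∀ (D : ℝ) (e : ℕ), 1 ≤ D → (e : ℝ) ≤ D + 1 →
    ∃ i : ℕ, 2 * e + 2 ≤ 2 ^ i ∧
      ((4 * (K * 2 ^ i * (i + 1) ^ 8) + 1 : ℕ) : ℝ) ≤ A * D * (Real.logb 2 (D + 1)) ^ 8 := by
  refine ⟨5 * (K + 1) * 16 * 5 ^ 8, ?_, fun D e hD he => ?_⟩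
  · have : (0 : ℝ) ≤ K := Nat.cast_nonneg K
    nlinarith
  obtain ⟨L, hL⟩ : ∃ L, L = Real.logb 2 (D + 1) := ⟨_, rfl⟩
  rw [← hL]
  have hL1 : 1 ≤ L := by
    rw [hL, Real.le_logb_iff_rpow_le (by norm_num) (by linarith), Real.rpow_one]
    linarith
  refine ⟨Nat.clog 2 (2 * e + 2), Nat.le_pow_clog (by norm_num) _, ?_⟩
  obtain ⟨i, hi⟩ : ∃ i, i = Nat.clog 2 (2 * e + 2) := ⟨_, rfl⟩
  rw [← hi]
  have hipos : 1 ≤ i := by
    rw [hi]
    have h0 : 0 < Nat.clog 2 (2 * e + 2) :=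
      Nat.clog_pos (b := 2) (n := 2 * e + 2) (by norm_num) (by omega)
    exact h0
  have h1 : 2 ^ i ≤ 4 * e + 4 := by
    have h2 : 2 ^ (i - 1) < 2 * e + 2 := by
      rw [hi]
      have h0 := Nat.pow_pred_clog_lt_self (b := 2) (x := 2 * e + 2) (by norm_num) (by omega)
      exact h0
    have h3 : 2 ^ i = 2 * 2 ^ (i - 1) := by
      rw [← pow_succ']
      congr 1
      omega
    omega
  have h2 : (2 : ℝ) ^ i ≤ 16 * D := by
    have h3 : ((2 ^ i : ℕ) : ℝ) ≤ ((4 * e + 4 : ℕ) : ℝ) := by exact_mod_cast h1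
    push_cast at h3
    linarith
  have h3 : ((i + 1 : ℕ) : ℝ) ≤ 5 * L := by
    have h4 : (i : ℝ) ≤ Real.logb 2 (8 * (D + 1)) := by
      rw [Real.le_logb_iff_rpow_le (by norm_num) (by linarith), Real.rpow_natCast]
      have h5 : ((2 ^ i : ℕ) : ℝ) ≤ ((4 * e + 4 : ℕ) : ℝ) := by exact_mod_cast h1
      push_cast at h5
      linarith
    have h6 : Real.logb 2 (8 * (D + 1)) = 3 + L := by
      rw [Real.logb_mul (by norm_num) (by linarith), hL, show (8 : ℝ) = 2 ^ 3 by norm_num,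
        Real.logb_pow, Real.logb_self_eq_one (by norm_num)]
      norm_num
    push_cast
    linarith
  have hK0 : (0 : ℝ) ≤ K := Nat.cast_nonneg K
  have hP : (1 : ℝ) ≤ (2 : ℝ) ^ i * ((i + 1 : ℕ) : ℝ) ^ 8 := by
    have e1 : (1 : ℝ) ≤ (2 : ℝ) ^ i := one_le_pow₀ (by norm_num)
    have e2 : (1 : ℝ) ≤ ((i + 1 : ℕ) : ℝ) ^ 8 := one_le_pow₀ (by
      push_cast
      have : (0 : ℝ) ≤ i := Nat.cast_nonneg i
      linarith)
    calc (1 : ℝ) = 1 * 1 := by norm_num
      _ ≤ _ := mul_le_mul e1 e2 (by norm_num) (by positivity)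
  calc ((4 * (K * 2 ^ i * (i + 1) ^ 8) + 1 : ℕ) : ℝ)
      = 4 * K * ((2 : ℝ) ^ i * ((i + 1 : ℕ) : ℝ) ^ 8) + 1 := by push_cast; ring
    _ ≤ 5 * (K + 1) * ((2 : ℝ) ^ i * ((i + 1 : ℕ) : ℝ) ^ 8) := by
        have e3 : (0 : ℝ) ≤ K * ((2 : ℝ) ^ i * ((i + 1 : ℕ) : ℝ) ^ 8) := by positivity
        nlinarith
    _ ≤ 5 * (K + 1) * ((16 * D) * (5 * L) ^ 8) := by
        apply mul_le_mul_of_nonneg_left _ (by positivity)
        exact mul_le_mul h2 (pow_le_pow_left₀ (Nat.cast_nonneg _) h3 8) (by positivity)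
          (by linarith)
    _ = 5 * (K + 1) * 16 * 5 ^ 8 * D * L ^ 8 := by ring

/-- The main estimate, sharp form. -/
theorem all_sharp : ∃ A : ℝ, ∀ (S : ℕ) (D : ℝ), 2 ≤ S → Real.logb 2 S ≤ D →
    ∃ (n : ℕ) (M : Circuit n), M.size ≤ S ∧ M.nots = 0 ∧
      (∀ (d : ℕ) (ws : List ℕ), (d : ℝ) ≤ D → Queries d M.eval ws Set.univ →
        (S : ℝ) ≤ A * D * (Real.logb 2 (D + 1)) ^ 8 * ((ws.map (fun w => w + 1)).prod : ℕ)) ∧
      (∀ C : Circuit n, (∀ x, C.eval x = M.eval x) → (C.depth : ℝ) ≤ D → ∀ h : ℕ,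
        (S : ℝ) ≤ A * D * (Real.logb 2 (D + 1)) ^ 8 * 2 ^ (C.deepNots h + h) ∧
        ∀ r : ℕ, (∀ j, C.notLevel j ≤ r) →
          (S : ℝ) ≤ A * D * (Real.logb 2 (D + 1)) ^ 8 *
            (2 ^ h * (1 + (C.deepNots h : ℝ) / r) ^ r)) ∧
      (∀ F : Fm n, (∀ x, F.eval x = M.eval x) → (F.depth : ℝ) ≤ D →
        (S : ℝ) ≤ A * D ^ 2 * (Real.logb 2 (D + 1)) ^ 8 * (F.nots + 1)) := by
  obtain ⟨K, hK⟩ := strong_mono
  obtain ⟨A, hA1, hA⟩ := block_sharp K
  refine ⟨3 * A, fun S D hS hD => ?_⟩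
  obtain ⟨hD1, e, he1, he2, hSe⟩ := exists_param S hS D hD
  obtain ⟨i, hi1, hi2⟩ := hA D e hD1 he2
  obtain ⟨k, hk⟩ : ∃ k, k = K * 2 ^ i * (i + 1) ^ 8 := ⟨_, rfl⟩
  rw [← hk] at hi2
  obtain ⟨g, hg0, hg1, hg2⟩ := hK i k hk.ge
  obtain ⟨B, hB⟩ : ∃ B, B = 4 * k + 1 := ⟨_, rfl⟩
  rw [← hB] at hi2
  have hB0 : 0 < B := by omega
  obtain ⟨n, M, hM1, hM2, hM4, hM3, hM5⟩ := key_gen g hg0 (2 ^ i) hg1 hg2 (S / B)
  rw [← hB] at hM2
  have hSB : S < (S / B + 1) * B := by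
    have := Nat.lt_div_mul_add (a := S) hB0
    rw [add_mul, one_mul]
    exact this
  obtain ⟨X, hX⟩ : ∃ X, X = D * (Real.logb 2 (D + 1)) ^ 8 := ⟨_, rfl⟩
  have hL1 : 1 ≤ Real.logb 2 (D + 1) := by
    rw [Real.le_logb_iff_rpow_le (by norm_num) (by linarith), Real.rpow_one]
    linarith
  have hX1 : 1 ≤ X := by
    rw [hX]
    calc (1 : ℝ) = 1 * 1 := by norm_num
      _ ≤ _ := mul_le_mul hD1 (one_le_pow₀ hL1) (by norm_num) (by linarith)
  have hBX : (B : ℝ) ≤ A * X := by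
    rw [hX, ← mul_assoc]
    exact hi2
  have hA0 : 0 ≤ A := by linarith
  have hX0 : 0 ≤ X := by linarith
  -- from a bound of the number of blocks to the final bounds
  have hfin : ∀ P : ℕ, S / B < P → (S : ℝ) ≤ A * X * P := by
    intro P hP
    have h2 : S ≤ P * B := hSB.le.trans (Nat.mul_le_mul_right B hP)
    have h3 : (S : ℝ) ≤ P * B := by exact_mod_cast h2
    calc (S : ℝ) ≤ P * B := h3
      _ ≤ P * (A * X) := mul_le_mul_of_nonneg_left hBX (Nat.cast_nonneg P)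
      _ = A * X * P := by ring
  have hAX : 1 ≤ 3 * A * X := by nlinarith
  have hAX0 : 0 ≤ 3 * A * X := by linarith
  have e1 : ∀ y : ℝ, 3 * A * D * (Real.logb 2 (D + 1)) ^ 8 * y = 3 * A * X * y := by
    intro y
    rw [hX]
    ring
  refine ⟨n, M, hM2.trans (Nat.div_mul_le_self S B), hM1, ?_, ?_, ?_⟩
  · intro d ws hd hq
    rw [e1]
    have hd' : d ≤ e := by
      have : (d : ℝ) ≤ (e : ℝ) := hd.trans he1
      exact_mod_cast this
    by_cases hP : (ws.map (fun w => w + 1)).prod ≤ S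
    · have h1 := sum_lt_prod ws
      have h2 := hfin _ (hM4 d e ws hq (by omega) (by omega))
      refine h2.trans (mul_le_mul_of_nonneg_right ?_ (Nat.cast_nonneg _))
      nlinarith
    · have h1 : S ≤ (ws.map (fun w => w + 1)).prod := by omega
      have h2 : (S : ℝ) ≤ ((ws.map (fun w => w + 1)).prod : ℕ) := by exact_mod_cast h1
      calc (S : ℝ) ≤ 1 * ((ws.map (fun w => w + 1)).prod : ℕ) := by rw [one_mul]; exact h2
        _ ≤ 3 * A * X * ((ws.map (fun w => w + 1)).prod : ℕ) :=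
          mul_le_mul_of_nonneg_right hAX (Nat.cast_nonneg _)
  · intro C hC hdep h
    have hdep' : C.depth ≤ e := by
      have : (C.depth : ℝ) ≤ (e : ℝ) := hdep.trans he1
      exact_mod_cast this
    have hone : ∀ r : ℕ, (1 : ℝ) ≤ (1 + (C.deepNots h : ℝ) / r) ^ r := fun r =>
      one_le_pow₀ (by
        have : (0 : ℝ) ≤ (C.deepNots h : ℝ) / r := by positivity
        linarith)
    have h2h : (1 : ℝ) ≤ 2 ^ h := one_le_pow₀ (by norm_num)
    have main : ∀ r : ℕ, (∀ j, C.notLevel j ≤ r) → C.deepNots h < S → 2 ^ h < S →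
        ∃ t : ℕ → ℕ, ∑ s ∈ Finset.range r, t s ≤ C.deepNots h ∧
          (S : ℝ) ≤ 3 * A * X * (2 ^ h * ((∏ s ∈ Finset.range r, (t s + 1) : ℕ) : ℝ)) := by
      intro r hr hT hh
      obtain ⟨t, ht1, ht2⟩ := hM3 C hC h (e + 1) r hr (by rw [pow_succ]; omega) (by omega)
      refine ⟨t, ht1, ?_⟩
      have h3 := hfin _ ht2
      have h4 : (((∏ s ∈ Finset.range r, (t s + 1)) * (2 ^ h + 1) : ℕ) : ℝ) ≤
          3 * (2 ^ h * ((∏ s ∈ Finset.range r, (t s + 1) : ℕ) : ℝ)) := by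
        have h5 : (0 : ℝ) ≤ ((∏ s ∈ Finset.range r, (t s + 1) : ℕ) : ℝ) := Nat.cast_nonneg _
        push_cast at h5 ⊢
        nlinarith
      calc (S : ℝ) ≤ A * X * (((∏ s ∈ Finset.range r, (t s + 1)) * (2 ^ h + 1) : ℕ) : ℝ) := h3
        _ ≤ A * X * (3 * (2 ^ h * ((∏ s ∈ Finset.range r, (t s + 1) : ℕ) : ℝ))) :=
            mul_le_mul_of_nonneg_left h4 (mul_nonneg hA0 hX0)
        _ = 3 * A * X * (2 ^ h * ((∏ s ∈ Finset.range r, (t s + 1) : ℕ) : ℝ)) := by ring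
    rw [e1]
    by_cases hh : 2 ^ h < S
    · by_cases hT : C.deepNots h < S
      · refine ⟨?_, fun r hr => ?_⟩
        · obtain ⟨t, ht1, ht2⟩ := main C.size
            (fun j => (C.notLevel_le j.1 j.2).trans j.2) hT hh
          have h1 := prod_le_two_pow C.size _ t ht1
          have h2 : ((∏ s ∈ Finset.range C.size, (t s + 1) : ℕ) : ℝ) ≤ 2 ^ C.deepNots h := by
            exact_mod_cast h1
          refine ht2.trans (mul_le_mul_of_nonneg_left ?_ hAX0)
          rw [pow_add, mul_comm ((2 : ℝ) ^ C.deepNots h)]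
          exact mul_le_mul_of_nonneg_left h2 (by positivity)
        · rw [e1]
          obtain ⟨t, ht1, ht2⟩ := main r hr hT hh
          refine ht2.trans (mul_le_mul_of_nonneg_left ?_ hAX0)
          exact mul_le_mul_of_nonneg_left (amgm r _ t ht1) (by positivity)
      · have hT' : S ≤ C.deepNots h := not_lt.mp hT
        have hT2 : (S : ℝ) ≤ C.deepNots h := by exact_mod_cast hT'
        refine ⟨?_, fun r hr => ?_⟩
        · have h1 : C.deepNots h ≤ 2 ^ (C.deepNots h + h) := by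
            have e1 : C.deepNots h < 2 ^ C.deepNots h := Nat.lt_two_pow_self
            have e2 : 2 ^ C.deepNots h ≤ 2 ^ (C.deepNots h + h) :=
              Nat.pow_le_pow_right (by norm_num) (by omega)
            omega
          have h2 : (C.deepNots h : ℝ) ≤ 2 ^ (C.deepNots h + h) := by exact_mod_cast h1
          calc (S : ℝ) ≤ 1 * 2 ^ (C.deepNots h + h) := by rw [one_mul]; exact hT2.trans h2
            _ ≤ 3 * A * X * 2 ^ (C.deepNots h + h) :=
              mul_le_mul_of_nonneg_right hAX (by positivity)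
        · rcases Nat.eq_zero_or_pos r with h0 | h0
          · subst h0
            have := deepNots_zero_of_level C h hr
            omega
          · rw [e1]
            have h1 := le_pow_of_le (C.deepNots h) r h0
            calc (S : ℝ) ≤ 1 * (1 * (1 + (C.deepNots h : ℝ) / r) ^ r) := by
                  rw [one_mul, one_mul]; exact hT2.trans h1
              _ ≤ 3 * A * X * (2 ^ h * (1 + (C.deepNots h : ℝ) / r) ^ r) := by
                  have h3 := hone r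
                  gcongr
    · have hh' : S ≤ 2 ^ h := not_lt.mp hh
      have hh2 : (S : ℝ) ≤ 2 ^ h := by exact_mod_cast hh'
      refine ⟨?_, fun r hr => ?_⟩
      · have h1 : (2 : ℝ) ^ h ≤ 2 ^ (C.deepNots h + h) :=
          pow_le_pow_right₀ (by norm_num) (by omega)
        calc (S : ℝ) ≤ 1 * 2 ^ (C.deepNots h + h) := by rw [one_mul]; exact hh2.trans h1
          _ ≤ 3 * A * X * 2 ^ (C.deepNots h + h) :=
            mul_le_mul_of_nonneg_right hAX (by positivity)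
      · rw [e1]
        calc (S : ℝ) ≤ 1 * (2 ^ h * 1) := by rw [one_mul, mul_one]; exact hh2
          _ ≤ 3 * A * X * (2 ^ h * (1 + (C.deepNots h : ℝ) / r) ^ r) := by
              have h3 := hone r
              gcongr
  · intro F hF hdep
    have hdep' : F.depth ≤ e := by
      have : (F.depth : ℝ) ≤ (e : ℝ) := hdep.trans he1
      exact_mod_cast this
    have e2 : 3 * A * D ^ 2 * (Real.logb 2 (D + 1)) ^ 8 * (F.nots + 1) =
        3 * A * X * (D * (F.nots + 1)) := by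
      rw [hX]
      ring
    rw [e2]
    have hT0 : (0 : ℝ) ≤ F.nots := Nat.cast_nonneg _
    by_cases hT : F.nots + 1 ≤ S
    · have h1 := hM5 F hF e (by omega) (by omega)
      have h2 := hfin (F.nots * (F.depth + 1) + 2) (by omega)
      have h3 : ((F.nots * (F.depth + 1) + 2 : ℕ) : ℝ) ≤ 3 * (D * (F.nots + 1)) := by
        push_cast
        nlinarith [mul_le_mul_of_nonneg_left hdep hT0]
      calc (S : ℝ) ≤ A * X * ((F.nots * (F.depth + 1) + 2 : ℕ) : ℝ) := h2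
        _ ≤ A * X * (3 * (D * (F.nots + 1))) :=
            mul_le_mul_of_nonneg_left h3 (mul_nonneg hA0 hX0)
        _ = 3 * A * X * (D * (F.nots + 1)) := by ring
    · have hT' : S ≤ F.nots + 1 := by omega
      have hT2 : (S : ℝ) ≤ F.nots + 1 := by exact_mod_cast hT'
      calc (S : ℝ) ≤ 1 * (1 * (F.nots + 1)) := by rw [one_mul, one_mul]; exact hT2
        _ ≤ 3 * A * X * (D * (F.nots + 1)) := by gcongr

end NegOr

end Pool.Agent.BoolCirc
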